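import Mathlib

/-! Chains of presheaves on finite vertex sets: acyclic models, prisms, products, unions. -/

namespace Pool.Agent.P.MP_878f14_gt.MT

open FreeAbelianGroup
open Filter hiding map

noncomputable section

abbrev FA := FreeAbelianGroup

lemma hom_eq {α β : Type} [AddCommGroup β] (f g : FA α →+ β) (h : ∀ a, f (of a) = g (of a))
    (z : FA α) : f z = g z := DFunLike.congr_fun (lift_ext f g h) z

/-- the chains supported in a set -/
def C {α : Type} (s : Set α) : AddSubgroup (FA α) := AddSubgroup.closure (of '' s)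

section Chains

variable {α β : Type} {s s' : Set α}

lemma of_mem {a : α} (h : a ∈ s) : of a ∈ C s := AddSubgroup.subset_closure ⟨a, h, rfl⟩

lemma C_eq {B : Type} [AddCommGroup B] (f g : FA α →+ B) (h : ∀ a ∈ s, f (of a) = g (of a))
    {z : FA α} (hz : z ∈ C s) : f z = g z :=
  AddMonoidHom.eqOn_closure (by rintro _ ⟨a, ha, rfl⟩; exact h a ha) hz

lemma C_map {B : Type} [AddCommGroup B] (f : FA α →+ B) (W : AddSubgroup B)
    (h : ∀ a ∈ s, f (of a) ∈ W) {z : FA α} (hz : z ∈ C s) : f z ∈ W := by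
  have : C s ≤ W.comap f := (AddSubgroup.closure_le _).mpr (by rintro _ ⟨a, ha, rfl⟩; exact h a ha)
  exact this hz

lemma C_mono (h : s ⊆ s') : C s ≤ C s' := AddSubgroup.closure_mono (Set.image_mono h)

lemma C_univ (z : FA α) : z ∈ C (Set.univ : Set α) := by
  induction z using FreeAbelianGroup.induction_on with
  | zero => exact zero_mem _
  | of a => exact of_mem trivial
  | neg a ih => exact neg_mem ih
  | add a b ha hb => exact add_mem ha hb

lemma map_mem {t : Set β} {f : α → β} (h : ∀ a ∈ s, f a ∈ t) {z : FA α} (hz : z ∈ C s) :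
    map f z ∈ C t := C_map _ _ (fun a ha => of_mem (h a ha)) hz

lemma map_congr {f g : α → β} (h : ∀ a ∈ s, f a = g a) {z : FA α} (hz : z ∈ C s) :
    map f z = map g z := C_eq _ _ (fun a ha => congrArg of (h a ha)) hz

lemma map_self {f : α → α} (h : ∀ a ∈ s, f a = a) {z : FA α} (hz : z ∈ C s) : map f z = z :=
  C_eq _ (AddMonoidHom.id _) (fun a ha => congrArg of (h a ha)) hz

lemma C_union {z : FA α} (hz : z ∈ C (s ∪ s')) : ∃ x ∈ C s, ∃ y ∈ C s', x + y = z := by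
  rwa [C, Set.image_union, AddSubgroup.closure_union, AddSubgroup.mem_sup] at hz

lemma C_inter {z : FA α} (h : z ∈ C s) (h' : z ∈ C s') : z ∈ C (s ∩ s') := by
  classical
  have e := C_eq (lift fun a => if a ∈ s then of a else 0) (AddMonoidHom.id _)
    (fun a ha => by simp [ha]) h
  rw [← show _ = z from e]
  refine C_map _ _ (fun a ha => ?_) h'
  rw [lift_apply_of]
  split_ifs with h1
  exacts [of_mem ⟨h1, ha⟩, zero_mem _]

lemma ev_C {ι : Type} {l : Filter ι} (P : ι → FA α → Prop) (h0 : ∀ i, P i 0)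
    (ha : ∀ i x y, P i x → P i y → P i (x - y)) (h : ∀ a ∈ s, ∀ᶠ i in l, P i (of a))
    {z : FA α} (hz : z ∈ C s) : ∀ᶠ i in l, P i z := by
  have hn : ∀ i x, P i x → P i (-x) := fun i x hx => by simpa using ha i _ _ (h0 i) hx
  induction hz using AddSubgroup.closure_induction with
  | mem z hz => obtain ⟨a, ha, rfl⟩ := hz; exact h a ha
  | zero => exact .of_forall h0
  | add x y _ _ hx hy =>
    exact (hx.and hy).mono fun i hi => by simpa using ha i _ _ hi.1 (hn i _ hi.2)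
  | neg x _ hx => exact hx.mono fun i => hn i x

lemma ev_mem {ι : Type} {l : Filter ι} {B : Type} [AddCommGroup B] (f : ι → FA α →+ B)
    (W : ι → AddSubgroup B) (h : ∀ a ∈ s, ∀ᶠ i in l, f i (of a) ∈ W i) {z : FA α} (hz : z ∈ C s) :
    ∀ᶠ i in l, f i z ∈ W i :=
  ev_C (fun i z => f i z ∈ W i) (fun i => by rw [map_zero]; exact zero_mem _)
    (fun i x y hx hy => by rw [map_sub]; exact sub_mem hx hy) h hz

lemma ev_eq {ι : Type} {l : Filter ι} {B : Type} [AddCommGroup B] (f g : ι → FA α →+ B)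
    (h : ∀ a ∈ s, ∀ᶠ i in l, f i (of a) = g i (of a)) {z : FA α} (hz : z ∈ C s) :
    ∀ᶠ i in l, f i z = g i z :=
  ev_C (fun i z => f i z = g i z) (fun i => by rw [map_zero, map_zero])
    (fun i x y hx hy => by rw [map_sub, map_sub, hx, hy]) h hz

end Chains

/-- alternating sum over the faces -/
def al {A : Type} [AddCommGroup A] {k : ℕ} (F : (Fin k → Fin (k + 1)) → A) : A :=
  ∑ j : Fin (k + 1), (-1 : ℤ) ^ j.1 • F j.succAbove

lemma al_al {A : Type} [AddCommGroup A] {k : ℕ} (F : (Fin k → Fin (k + 2)) → A) :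
    (al fun φ => al fun ψ => F (φ ∘ ψ)) = 0 := by
  simp only [al, Finset.smul_sum, smul_smul, ← pow_add]
  rw [← Finset.sum_product']
  refine Finset.sum_involution (fun x _ => (x.1.succAbove x.2, x.2.predAbove x.1)) ?_ ?_
    (fun _ _ => Finset.mem_univ _) ?_
  · rintro ⟨i, j⟩ -
    have : (i.succAbove j).succAbove ∘ (j.predAbove i).succAbove = i.succAbove ∘ j.succAbove :=
      funext (Fin.succAbove_succAbove_succAbove_predAbove i j)
    simp only [this, Fin.neg_one_pow_succAbove_add_predAbove, neg_smul, add_neg_cancel]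
  · rintro ⟨i, j⟩ - - h
    exact Fin.succAbove_ne i j (congrArg Prod.fst h)
  · rintro ⟨i, j⟩ -
    simp only [Fin.succAbove_succAbove_predAbove, Fin.predAbove_predAbove_succAbove]

lemma map_al {A B : Type} [AddCommGroup A] [AddCommGroup B] {k : ℕ} (f : A →+ B)
    (F : (Fin k → Fin (k + 1)) → A) : f (al F) = al fun φ => f (F φ) := by
  simp only [al, map_sum, map_zsmul]

lemma al_congr {A : Type} [AddCommGroup A] {k : ℕ} {F G : (Fin k → Fin (k + 1)) → A}
    (h : ∀ j : Fin (k + 1), F j.succAbove = G j.succAbove) : al F = al G :=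
  Finset.sum_congr rfl fun j _ => by rw [h j]

lemma al_mem {A : Type} [AddCommGroup A] {k : ℕ} {F : (Fin k → Fin (k + 1)) → A}
    {W : AddSubgroup A} (h : ∀ φ, F φ ∈ W) : al F ∈ W :=
  sum_mem fun _ _ => zsmul_mem (h _) _

lemma al_sub {A : Type} [AddCommGroup A] {k : ℕ} (F G : (Fin k → Fin (k + 1)) → A) :
    (al fun φ => F φ - G φ) = al F - al G := by
  simp only [al, smul_sub, Finset.sum_sub_distrib]

/-- presheaves on finite vertex sets -/
structure PS where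
  X : ℕ → Type
  p : ∀ {r k : ℕ}, (Fin r → Fin k) → X k → X r
  p_p : ∀ {q r k : ℕ} (φ : Fin q → Fin r) (ψ : Fin r → Fin k) (x : X k), p φ (p ψ x) = p (ψ ∘ φ) x

namespace PS

variable (P : PS) {Q : PS} {k : ℕ}

/-- the boundary -/
def bd : FA (P.X (k + 1)) →+ FA (P.X k) := lift fun x => al fun φ => of (P.p φ x)

lemma bd_of (x : P.X (k + 1)) : P.bd (of x) = al fun φ => of (P.p φ x) := lift_apply_of _ _

lemma bd_bd (z : FA (P.X (k + 2))) : P.bd (P.bd z) = 0 := by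
  refine hom_eq (P.bd.comp P.bd) 0 (fun x => ?_) z
  simp only [AddMonoidHom.comp_apply, bd_of, map_al, P.p_p]
  exact al_al fun φ => of (P.p φ x)

/-- cycles -/
def Z : ∀ k, AddSubgroup (FA (P.X k))
  | 0 => ⊤
  | _ + 1 => P.bd.ker

lemma bd_Z (z : FA (P.X (k + 1))) : P.bd z ∈ P.Z k := by
  cases k with
  | zero => trivial
  | succ k => exact P.bd_bd z

/-- families of simplices -/
abbrev Fm := ∀ k, Set (P.X k)

variable {P}

/-- closed under the operations -/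
def Cl (S : P.Fm) : Prop := ∀ {r k : ℕ} (φ : Fin r → Fin k), ∀ x ∈ S k, P.p φ x ∈ S r

/-- boundaries -/
def B (S : P.Fm) (k : ℕ) : AddSubgroup (FA (P.X k)) := (C (S (k + 1))).map P.bd

def Ex (S : P.Fm) (k : ℕ) : Prop := ∀ z ∈ C (S k), z ∈ P.Z k → z ∈ B S k

def Ac (m : ℕ) (S : P.Fm) : Prop := ∀ k ≤ m, Ex S k

variable {S S' : P.Fm}

lemma B_mono (h : S (k + 1) ⊆ S' (k + 1)) : B S k ≤ B S' k := AddSubgroup.map_mono (C_mono h)

lemma B_le_Z : B S k ≤ P.Z k := by rintro _ ⟨w, -, rfl⟩; exact P.bd_Z w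

lemma Cl.bd (h : Cl S) {z : FA (P.X (k + 1))} (hz : z ∈ C (S (k + 1))) : P.bd z ∈ C (S k) :=
  C_map _ _ (fun x hx => by rw [bd_of]; exact al_mem fun φ => of_mem (h φ x hx)) hz

lemma bd_map {f : P.X (k + 1) → Q.X (k + 1)} {g : P.X k → Q.X k} {s : Set (P.X (k + 1))}
    (h : ∀ φ, ∀ x ∈ s, Q.p φ (f x) = g (P.p φ x)) {z : FA (P.X (k + 1))} (hz : z ∈ C s) :
    Q.bd (map f z) = map g (P.bd z) :=
  C_eq (Q.bd.comp (map f)) ((map g).comp P.bd) (fun x hx => by
    simp only [AddMonoidHom.comp_apply, map_of_apply, bd_of, map_al, h _ x hx]) hz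

lemma map_Z {f : ∀ k, P.X k → Q.X k}
    (h : ∀ k (φ : Fin k → Fin (k + 1)), ∀ x ∈ S (k + 1), Q.p φ (f _ x) = f _ (P.p φ x))
    {z : FA (P.X k)} (hz : z ∈ C (S k)) (h0 : z ∈ P.Z k) : map (f k) z ∈ Q.Z k := by
  cases k with
  | zero => trivial
  | succ k => exact (bd_map (h k) hz).trans (by rw [show P.bd z = 0 from h0, map_zero])

lemma map_B {T : Q.Fm} {f : ∀ k, P.X k → Q.X k}
    (h : ∀ (φ : Fin k → Fin (k + 1)), ∀ x ∈ S (k + 1), Q.p φ (f _ x) = f _ (P.p φ x))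
    (h' : ∀ x ∈ S (k + 1), f _ x ∈ T (k + 1)) {z : FA (P.X k)} (hz : z ∈ B S k) :
    map (f k) z ∈ B T k := by
  obtain ⟨w, hw, rfl⟩ := hz
  exact ⟨_, map_mem h' hw, bd_map h hw⟩

/-! ### unions -/

lemma ex_union (h : Cl S) (h' : Cl S') (h1 : Ex S k) (h2 : Ex S' k)
    (h3 : ∀ j, j + 1 = k → Ex (fun k => S k ∩ S' k) j) : Ex (fun k => S k ∪ S' k) k := by
  intro z hz h0
  obtain ⟨x, hx, y, hy, rfl⟩ := C_union hz
  have a1 : B S k ≤ B (fun k => S k ∪ S' k) k := B_mono Set.subset_union_left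
  have a2 : B S' k ≤ B (fun k => S k ∪ S' k) k := B_mono Set.subset_union_right
  cases k with
  | zero => exact add_mem (a1 (h1 x hx trivial)) (a2 (h2 y hy trivial))
  | succ k =>
    have e : P.bd x = -P.bd y := eq_neg_of_add_eq_zero_left ((map_add _ _ _).symm.trans h0)
    obtain ⟨w, hw, e'⟩ := h3 k rfl _ (C_inter (h.bd hx) (e ▸ neg_mem (h'.bd hy))) (P.bd_Z x)
    have := add_mem (a1 (h1 (x - w) (sub_mem hx (C_mono Set.inter_subset_left hw))
      (show P.bd _ = 0 by rw [map_sub, e', sub_self])))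
      (a2 (h2 (y + w) (add_mem hy (C_mono Set.inter_subset_right hw))
      (show P.bd _ = 0 by rw [map_add, e', e, add_neg_cancel])))
    rwa [sub_add_add_cancel] at this

lemma ex_biUnion {ι : Type} {m : ℕ} {s : Finset ι} (hs : s.Nonempty) (S : ι → P.Fm)
    (hc : ∀ i, Cl (S i)) (h : ∀ t ⊆ s, t.Nonempty → Ac m fun k => {x | ∀ i ∈ t, x ∈ S i k}) :
    ∀ j ≤ m + 1, (∀ i ∈ s, Ex (S i) j) → Ex (fun k => {x | ∃ i ∈ s, x ∈ S i k}) j := by
  classical
  induction hs using Finset.Nonempty.cons_induction generalizing S with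
  | singleton a => intro j _ h1; simpa using h1 a (Finset.mem_singleton_self a)
  | cons a s ha hs ih =>
    intro j hj h1
    have e : (fun k => {x | ∃ i ∈ Finset.cons a s ha, x ∈ S i k}) =
        fun k => S a k ∪ {x | ∃ i ∈ s, x ∈ S i k} := by ext; simp
    have a1 : ∀ t ⊆ s, t.Nonempty → Ac m fun k => {x | ∀ i ∈ t, x ∈ S a k ∩ S i k} := by
      intro t ht ⟨b, hb⟩
      have := h (insert a t) (by rw [Finset.cons_eq_insert]; exact Finset.insert_subset_insert a ht)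
        (Finset.insert_nonempty a t)
      have e' : (fun k => {x | ∀ i ∈ t, x ∈ S a k ∩ S i k}) =
          fun k => {x | ∀ i ∈ insert a t, x ∈ S i k} := by
        ext k x
        simp only [Set.mem_ofPred_eq, Finset.forall_mem_insert, Set.mem_inter_iff]
        exact ⟨fun h => ⟨(h b hb).1, fun i hi => (h i hi).2⟩, fun h i hi => ⟨h.1, h.2 i hi⟩⟩
      rwa [e']
    rw [e]
    refine ex_union (hc a) (fun φ x ⟨i, hi, hx⟩ => ⟨i, hi, hc i φ x hx⟩)
      (h1 a (Finset.mem_cons_self _ _))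
      (ih S hc (fun t ht => h t (ht.trans (Finset.subset_cons _))) j hj
        fun i hi => h1 i (Finset.mem_cons_of_mem hi)) fun j' hj' => ?_
    have e' : (fun k => S a k ∩ {x | ∃ i ∈ s, x ∈ S i k}) =
        fun k => {x | ∃ i ∈ s, x ∈ S a k ∩ S i k} := by
      ext k x
      exact ⟨fun ⟨h, i, hi, h'⟩ => ⟨i, hi, h, h'⟩, fun ⟨i, hi, h, h'⟩ => ⟨h, i, hi, h'⟩⟩
    rw [e']
    refine ih (fun i k => S a k ∩ S i k) (fun i _ _ φ x hx => ⟨hc a φ x hx.1, hc i φ x hx.2⟩) a1 j'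
      (by omega) fun i hi => ?_
    simpa using a1 {i} (Finset.singleton_subset_iff.mpr hi) (Finset.singleton_nonempty i) j'
      (by omega)

/-! ### acyclic models -/

/-- models -/
structure Md where
  T : ℕ → PS
  δ : ∀ {k k' r : ℕ}, (Fin k → Fin k') → (T k).X r → (T k').X r
  δ_δ : ∀ {k k' k'' r : ℕ} (φ : Fin k → Fin k') (ψ : Fin k' → Fin k'') (x : (T k).X r),
    δ ψ (δ φ x) = δ (ψ ∘ φ) x
  δ_p : ∀ {k k' r q : ℕ} (φ : Fin k → Fin k') (ψ : Fin q → Fin r) (x : (T k).X r),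
    (T k').p ψ (δ φ x) = δ φ ((T k).p ψ x)

/-- the coboundary of a family of chains in the models -/
def Md.D (M : Md) (Y : PS) {k r : ℕ} (h : Y.X k → FA ((M.T k).X r)) (y : Y.X (k + 1)) :
    FA ((M.T (k + 1)).X r) := al fun φ => map (M.δ φ) (h (Y.p φ y))

lemma Md.bd_D (M : Md) (Y : PS) {k r : ℕ} (h : Y.X k → FA ((M.T k).X (r + 1)))
    (y : Y.X (k + 1)) : (M.T (k + 1)).bd (M.D Y h y) = M.D Y (fun y => (M.T k).bd (h y)) y := by
  simp only [Md.D, map_al]
  exact congrArg al (funext fun φ => bd_map (fun ψ x _ => M.δ_p φ ψ x) (C_univ _))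

lemma Md.D_D (M : Md) (Y : PS) {k r : ℕ} (h : Y.X k → FA ((M.T k).X r)) (y : Y.X (k + 2)) :
    M.D Y (M.D Y h) y = 0 := by
  have e : ∀ (φ : Fin (k + 1) → Fin (k + 2)) (ψ : Fin k → Fin (k + 1)) (z : FA ((M.T k).X r)),
      map (M.δ φ) (map (M.δ ψ) z) = map (M.δ (φ ∘ ψ)) z := fun φ ψ z => by
    rw [← FreeAbelianGroup.map_comp_apply]
    exact congrArg (fun f => map f z) (funext (M.δ_δ ψ φ))
  simp only [Md.D, map_al, e, Y.p_p]
  exact al_al fun φ => map (M.δ φ) (h (Y.p φ y))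

theorem am (M : Md) (U : ∀ k, (M.T k).Fm) {Y : PS} {SY : Y.Fm} (hY : Cl SY)
    (hU : ∀ k r (φ : Fin k → Fin (k + 1)), ∀ x ∈ U k r, M.δ φ x ∈ U (k + 1) r)
    (γ : ∀ k, Y.X k → FA ((M.T k).X k)) (γ0 : ∀ y, γ 0 y = 0)
    (γU : ∀ k, ∀ y ∈ SY k, γ k y ∈ C (U k k))
    (γd : ∀ k y, (M.T (k + 1)).bd (γ (k + 1) y) = M.D Y (γ k) y)
    (hE : ∀ j < k, Ex (U (j + 1)) (j + 1)) (hS : Cl S) {T : Q.Fm} (π : ∀ k, P.X k → Y.X k)
    (hπ : ∀ k, ∀ x ∈ S k, π k x ∈ SY k)
    (πp : ∀ k (φ : Fin k → Fin (k + 1)) x, π k (P.p φ x) = Y.p φ (π _ x))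
    (ev : ∀ {k r : ℕ}, P.X k → (M.T k).X r → Q.X r)
    (e1 : ∀ k r (φ : Fin r → Fin (r + 1)), ∀ x ∈ S k, ∀ τ ∈ U k (r + 1),
      Q.p φ (ev x τ) = ev x ((M.T k).p φ τ))
    (e2 : ∀ k r (j : Fin (k + 1)), ∀ x ∈ S (k + 1), ∀ τ ∈ U k r,
      ev (P.p j.succAbove x) τ = ev x (M.δ j.succAbove τ))
    (e3 : ∀ x ∈ S k, ∀ τ ∈ U k (k + 1), ev x τ ∈ T (k + 1))
    {z : FA (P.X k)} (hz : z ∈ C (S k)) (h0 : z ∈ P.Z k) :
    lift (fun x => map (ev x) (γ k (π k x))) z ∈ B T k := by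
  have hD : ∀ {k r} {h : Y.X k → FA ((M.T k).X r)}, (∀ y ∈ SY k, h y ∈ C (U k r)) →
      ∀ y ∈ SY (k + 1), M.D Y h y ∈ C (U (k + 1) r) := fun hh y hy =>
    al_mem fun φ => map_mem (hU _ _ φ) (hh _ (hY φ y hy))
  have st : ∀ j < k, ∀ h : Y.X j → FA ((M.T j).X (j + 1)), (∀ y ∈ SY j, h y ∈ C (U j (j + 1))) →
      (∀ y ∈ SY (j + 1), M.D Y (fun y => (M.T j).bd (h y)) y = M.D Y (γ j) y) →
      ∃ h' : Y.X (j + 1) → FA ((M.T (j + 1)).X (j + 2)), ∀ y ∈ SY (j + 1),
        h' y ∈ C (U (j + 1) (j + 2)) ∧ (M.T (j + 1)).bd (h' y) = γ (j + 1) y - M.D Y h y := by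
    intro j hj h h1 h2
    have : ∀ y, ∃ w, y ∈ SY (j + 1) → w ∈ C (U (j + 1) (j + 2)) ∧
        (M.T (j + 1)).bd w = γ (j + 1) y - M.D Y h y := fun y => by
      by_cases hy : y ∈ SY (j + 1)
      · obtain ⟨w, hw⟩ := hE j hj _ (sub_mem (γU _ y hy) (hD h1 y hy))
          (show (M.T (j + 1)).bd _ = 0 by rw [map_sub, γd, M.bd_D, h2 y hy, sub_self])
        exact ⟨w, fun _ => hw⟩
      · exact ⟨0, fun h => absurd h hy⟩
    choose h' hh' using this
    exact ⟨h', hh'⟩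
  have A : ∀ j ≤ k, ∃ h : Y.X j → FA ((M.T j).X (j + 1)), (∀ y ∈ SY j, h y ∈ C (U j (j + 1))) ∧
      ∀ y ∈ SY (j + 1), M.D Y (fun y => (M.T j).bd (h y)) y = M.D Y (γ j) y := by
    intro j hj
    induction j with
    | zero => exact ⟨fun _ => 0, fun _ _ => zero_mem _, fun y _ => by simp only [Md.D, γ0, map_zero]⟩
    | succ j ih =>
      obtain ⟨h, h1, h2⟩ := ih (by omega)
      obtain ⟨h', h3⟩ := st j hj h h1 h2
      refine ⟨h', fun y hy => (h3 y hy).1, fun y hy => ?_⟩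
      have := M.D_D Y h y
      simp only [Md.D] at this ⊢
      rw [← sub_zero (al fun φ => map (M.δ φ) (γ (j + 1) (Y.p φ y))), ← this, ← al_sub]
      exact congrArg al (funext fun φ => by rw [(h3 _ (hY φ y hy)).2, map_sub]; rfl)
  cases k with
  | zero => simp only [γ0, map_zero]; exact C_map _ _ (fun _ _ => by simp) hz
  | succ k =>
    obtain ⟨h, h1, h2⟩ := A k (by omega)
    obtain ⟨h', h3⟩ := st k (by omega) h h1 h2
    refine ⟨lift (fun x => map (ev x) (h' (π _ x))) z, C_map _ _ (fun x hx => ?_) hz, ?_⟩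
    · rw [lift_apply_of]
      exact map_mem (e3 x hx) (h3 _ (hπ _ x hx)).1
    · have := C_eq (Q.bd.comp (lift fun x => map (ev x) (h' (π _ x))))
        (lift (fun x => map (ev x) (γ (k + 1) (π _ x))) -
          (lift fun x => map (ev x) (h (π _ x))).comp P.bd) (fun x hx => by
        simp only [AddMonoidHom.comp_apply, lift_apply_of, AddMonoidHom.sub_apply, bd_of, map_al]
        rw [bd_map (fun φ => e1 _ _ φ x hx) (h3 _ (hπ _ x hx)).1, (h3 _ (hπ _ x hx)).2, map_sub,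
          Md.D, map_al]
        refine congrArg _ (al_congr fun j => ?_)
        rw [← FreeAbelianGroup.map_comp_apply, ← πp]
        exact (map_congr (e2 _ _ j x hx) (h1 _ (hπ _ _ (hS _ x hx)))).symm) hz
      rwa [AddMonoidHom.sub_apply, AddMonoidHom.comp_apply, AddMonoidHom.comp_apply,
        show P.bd z = 0 from h0, map_zero, sub_zero] at this

end PS

end

end Pool.Agent.P.MP_878f14_gt.MT
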