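import Pool.Agent.P.MP_878f14_gt.MT.Alg

/-! Cones, prisms and products. -/

namespace Pool.Agent.P.MP_878f14_gt.MT

open FreeAbelianGroup

noncomputable section

namespace PS

/-- tuples of points -/
abbrev Tup (V : Type) : PS := ⟨fun r => Fin r → V, fun φ v => v ∘ φ, fun _ _ _ => rfl⟩

/-- the cone -/
def cone {V : Type} {r : ℕ} (b : V) : FA (Fin r → V) →+ FA (Fin (r + 1) → V) :=
  map fun v => Fin.cons b v

lemma bd_cone0 {V : Type} (b : V) (z : FA (Fin 0 → V)) : (Tup V).bd (cone b z) = z := by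
  refine hom_eq ((Tup V).bd.comp (cone b)) (AddMonoidHom.id _) (fun v => ?_) z
  refine ((Tup V).bd_of _).trans ?_
  simp only [al, Fin.sum_univ_succ, Fin.sum_univ_zero, Fin.val_zero, pow_zero, one_smul, add_zero]
  exact congrArg of (Subsingleton.elim (α := Fin 0 → V) _ _)

lemma bd_cone {V : Type} {r : ℕ} (b : V) (z : FA (Fin (r + 1) → V)) :
    (Tup V).bd (cone b z) = z - cone b ((Tup V).bd z) := by
  refine hom_eq ((Tup V).bd.comp (cone b)) (AddMonoidHom.id _ - (cone b).comp (Tup V).bd)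
    (fun v => ?_) z
  refine ((Tup V).bd_of _).trans ?_
  have e : ∀ j : Fin (r + 1), (Fin.cons b v : Fin (r + 2) → V) ∘ j.succ.succAbove =
      Fin.cons b (v ∘ j.succAbove) := fun j => by
    funext i
    refine Fin.cases rfl (fun i => ?_) i
    change (Fin.cons b v : Fin (r + 2) → V) (j.succ.succAbove i.succ) = _
    rw [Fin.succ_succAbove_succ]
    rfl
  rw [AddMonoidHom.sub_apply, AddMonoidHom.comp_apply, (Tup V).bd_of, map_al, al, al,
    Fin.sum_univ_succ]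
  simp only [e, Fin.val_succ, pow_succ, mul_neg, mul_one, neg_smul, Finset.sum_neg_distrib,
    Fin.val_zero, pow_zero, one_smul, ← sub_eq_add_neg]
  rfl

lemma ex_tup {V : Type} (b : V) (k : ℕ) : Ex (P := Tup V) (fun _ => Set.univ) k := by
  intro z _ h0
  refine ⟨cone b z, C_univ _, ?_⟩
  cases k with
  | zero => exact bd_cone0 b z
  | succ k => rw [bd_cone, show (Tup V).bd z = 0 from h0, map_zero, sub_zero]

/-- models made of tuples -/
abbrev mdT (V : ℕ → Type) (m : ∀ {k k' : ℕ}, (Fin k → Fin k') → V k → V k')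
    (h : ∀ {k k' k'' : ℕ} (φ : Fin k → Fin k') (ψ : Fin k' → Fin k'') (x : V k),
      m ψ (m φ x) = m (ψ ∘ φ) x) : Md :=
  ⟨fun k => Tup (V k), fun φ v => m φ ∘ v, fun φ ψ v => funext fun i => h φ ψ (v i),
    fun _ _ _ => rfl⟩

/-- the point -/
abbrev pt : PS := ⟨fun _ => Unit, fun _ _ => (), fun _ _ _ => rfl⟩

variable {P Q : PS} {S : P.Fm} {k : ℕ}

theorem am_tup (V : ℕ → Type) (m : ∀ {k k' : ℕ}, (Fin k → Fin k') → V k → V k')
    (h : ∀ {k k' k'' : ℕ} (φ : Fin k → Fin k') (ψ : Fin k' → Fin k'') (x : V k),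
      m ψ (m φ x) = m (ψ ∘ φ) x) (b : ∀ k, V (k + 1)) (γ : ∀ k, FA (Fin k → V k)) (γ0 : γ 0 = 0)
    (γd : ∀ k, (Tup _).bd (γ (k + 1)) = al fun φ => map (fun v => m φ ∘ v) (γ k))
    (hS : Cl S) {T : Q.Fm} (H : ∀ {k r : ℕ}, P.X k → (Fin r → V k) → Q.X r)
    (h1 : ∀ k r (φ : Fin r → Fin (r + 1)), ∀ x ∈ S k, ∀ v, Q.p φ (H x v) = H x (v ∘ φ))
    (h2 : ∀ k r (j : Fin (k + 1)), ∀ x ∈ S (k + 1), ∀ v : Fin r → V k,
      H (P.p j.succAbove x) v = H x (m j.succAbove ∘ v))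
    (h3 : ∀ x ∈ S k, ∀ v, H x v ∈ T (k + 1)) {z : FA (P.X k)} (hz : z ∈ C (S k))
    (h0 : z ∈ P.Z k) : lift (fun x => map (H x) (γ k)) z ∈ B T k :=
  am (mdT V m h) (fun _ _ => Set.univ) (Y := pt) (SY := fun _ => Set.univ) (fun _ _ _ => trivial)
    (fun _ _ _ _ _ => trivial) (fun k _ => γ k) (fun _ => γ0) (fun _ _ _ => C_univ _)
    (fun k _ => γd k) (fun j _ => ex_tup (b j) _) hS (fun _ _ => ()) (fun _ _ _ => trivial)
    (fun _ _ _ => rfl) H (fun k r φ x hx v _ => h1 k r φ x hx v)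
    (fun k r φ x hx v _ => h2 k r φ x hx v) (fun x hx v _ => h3 x hx v) hz h0

theorem prism (hS : Cl S) {T : Q.Fm} (H : ∀ {k r : ℕ}, P.X k → (Fin r → Fin k × Bool) → Q.X r)
    (h1 : ∀ k r (φ : Fin r → Fin (r + 1)), ∀ x ∈ S k, ∀ v, Q.p φ (H x v) = H x (v ∘ φ))
    (h2 : ∀ k r (j : Fin (k + 1)), ∀ x ∈ S (k + 1), ∀ v : Fin r → Fin k × Bool,
      H (P.p j.succAbove x) v = H x (Prod.map j.succAbove id ∘ v))
    (h3 : ∀ x ∈ S k, ∀ v, H x v ∈ T (k + 1)) {z : FA (P.X k)} (hz : z ∈ C (S k))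
    (h0 : z ∈ P.Z k) :
    map (fun x => H x fun i => (i, true)) z - map (fun x => H x fun i => (i, false)) z ∈ B T k := by
  have := am_tup (fun k => Fin k × Bool) (fun φ => Prod.map φ id) (fun _ _ _ => rfl)
    (fun _ => (0, true)) (fun _ => of (fun i => (i, true)) - of fun i => (i, false))
    (sub_eq_zero.mpr (congrArg of (Subsingleton.elim _ _))) (fun k => by
      simp only [map_sub, map_of_apply, al_sub]
      exact congrArg₂ _ (bd_of _ _) (bd_of _ _)) hS H h1 h2 h3 hz h0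
  rwa [hom_eq (lift _) (map (fun x => H x fun i => (i, true)) -
    map fun x => H x fun i => (i, false)) fun x => by
      simp only [lift_apply_of, map_sub, map_of_apply, AddMonoidHom.sub_apply]] at this

/-- product with a full simplex -/
abbrev pr (P : PS) (k : ℕ) : PS :=
  ⟨fun r => (Fin r → Fin k) × P.X r, fun φ τ => (τ.1 ∘ φ, P.p φ τ.2),
    fun φ ψ τ => Prod.ext rfl (P.p_p φ ψ τ.2)⟩

lemma ex_pr (hS : Cl S) (hid : ∀ k, ∀ x ∈ S k, P.p id x = x) {j : ℕ} (h : Ex S k) :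
    Ex (P := P.pr (j + 1)) (fun r => {τ | τ.2 ∈ S r}) k := by
  intro z hz h0
  have a := prism (P := P.pr (j + 1)) (Q := P.pr (j + 1)) (S := fun r => {τ | τ.2 ∈ S r})
    (T := fun r => {τ | τ.2 ∈ S r}) (fun φ τ hτ => hS φ τ.2 hτ)
    (fun τ v => (fun l => if (v l).2 then τ.1 (v l).1 else 0, P.p (fun l => (v l).1) τ.2))
    (fun _ _ φ τ _ v => Prod.ext rfl (P.p_p _ _ _)) (fun _ _ φ τ _ v => Prod.ext rfl (P.p_p _ _ _))
    (fun τ hτ v => hS _ _ hτ) hz h0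
  have b0 : map Prod.snd z ∈ B S k := h _ (map_mem (f := Prod.snd) (fun _ hτ => hτ) hz)
    (map_Z (P := P.pr (j + 1)) (S := fun r => {τ | τ.2 ∈ S r}) (f := fun _ τ => τ.2)
      (fun _ _ _ _ => rfl) hz h0)
  have b := map_B (Q := P.pr (j + 1)) (T := fun r => {τ | τ.2 ∈ S r})
    (f := fun _ y => (fun _ => 0, y)) (fun _ _ _ => rfl) (fun _ hy => hy) b0
  rw [← FreeAbelianGroup.map_comp_apply] at b
  have e1 := map_self (f := fun τ : (P.pr (j + 1)).X k => (τ.1, P.p id τ.2))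
    (fun τ hτ => Prod.ext rfl (hid _ _ hτ)) hz
  have e2 := map_congr (f := fun τ : (P.pr (j + 1)).X k => ((fun _ => 0, P.p id τ.2) :
    (P.pr (j + 1)).X k)) (g := (fun y => (fun _ => 0, y)) ∘ Prod.snd)
      (fun τ hτ => Prod.ext rfl (hid _ _ hτ)) hz
  rw [← e1, ← sub_add_cancel (map _ z) (map _ z)]
  exact add_mem a (e2 ▸ b)

/-- models made of products -/
abbrev mdP (P : PS) : Md :=
  ⟨P.pr, fun φ τ => (φ ∘ τ.1, τ.2), fun _ _ _ => rfl, fun _ _ _ => rfl⟩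

theorem kunneth [Subsingleton (P.X 0)] {m : ℕ} {S1 S2 : P.Fm} (c1 : Cl S1) (c2 : Cl S2)
    (hS : Cl S) (i1 : ∀ k, ∀ x ∈ S1 k, P.p id x = x) (i2 : ∀ k, ∀ x ∈ S2 k, P.p id x = x)
    (μ : ∀ {k : ℕ}, P.X k → P.X k → P.X k)
    (μp : ∀ {r k : ℕ} (φ : Fin r → Fin k) x y, P.p φ (μ x y) = μ (P.p φ x) (P.p φ y))
    (μm : ∀ k, ∀ x ∈ S1 k, ∀ y ∈ S2 k, μ x y ∈ S k) (π1 π2 : ∀ k, P.X k → P.X k)
    (p1 : ∀ k (φ : Fin k → Fin (k + 1)) x, π1 k (P.p φ x) = P.p φ (π1 _ x))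
    (p2 : ∀ k (φ : Fin k → Fin (k + 1)) x, π2 k (P.p φ x) = P.p φ (π2 _ x))
    (m1 : ∀ k, ∀ x ∈ S k, π1 k x ∈ S1 k) (m2 : ∀ k, ∀ x ∈ S k, π2 k x ∈ S2 k)
    (dec : ∀ k, ∀ x ∈ S k, μ (π1 k x) (π2 k x) = x) (e : ∀ k, P.X k) (he : ∀ k, e k ∈ S2 k)
    (ep : ∀ k (φ : Fin k → Fin (k + 1)), P.p φ (e _) = e k) (h1 : Ac m S1) (h2 : Ac m S2) :
    Ac m S := by
  intro k hk z hz h0
  have a := am P.mdP
    (fun _ r => {τ | τ.2 ∈ S2 r}) c2 (fun _ _ _ _ h => h)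
    (fun k y => of (id, y) - of (id, e k))
    (fun y => by rw [Subsingleton.elim y (e 0), sub_self])
    (fun k y hy => sub_mem (of_mem hy) (of_mem (he k))) (fun k y => by
      simp only [Md.D, map_sub, map_of_apply, al_sub]
      refine congrArg₂ _ (bd_of _ _) ((bd_of _ _).trans (congrArg al (funext fun φ => ?_)))
      exact congrArg of (Prod.ext rfl (ep k φ)))
    (fun j hj => ex_pr c2 i2 (h2 _ (by omega))) hS (T := S) π2 m2 p2
    (fun x τ => μ (P.p τ.1 (π1 _ x)) τ.2)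
    (fun _ _ φ x _ τ _ => by rw [μp, P.p_p])
    (fun _ _ φ x _ τ _ => by rw [p1, P.p_p])
    (fun x hx τ hτ => μm _ _ (c1 _ _ (m1 _ x hx)) _ hτ) hz h0
  have b := map_B (T := S) (f := fun k x => μ x (e k)) (fun φ x _ => by rw [μp, ep])
    (fun x hx => μm _ x hx _ (he _))
    (h1 k hk _ (map_mem (m1 k) hz) (map_Z (fun k φ x _ => (p1 k φ x).symm) hz h0))
  rw [← FreeAbelianGroup.map_comp_apply] at b
  rw [C_eq (lift _) (AddMonoidHom.id _ - map ((fun x => μ x (e k)) ∘ π1 k)) (fun x hx => by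
    simp only [lift_apply_of, map_sub, map_of_apply, AddMonoidHom.sub_apply, i1 _ _ (m1 _ x hx),
      dec _ x hx, AddMonoidHom.id_apply, Function.comp_apply]) hz] at a
  simpa using add_mem a b

end PS

end

end Pool.Agent.P.MP_878f14_gt.MT
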