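import Mathlib

/-! Local inverses and slices of smooth maps. -/

namespace Pool.Agent.P.MP_878f14_gt.MT

open Filter Topology Function
open scoped ContDiff

noncomputable section

variable {E F G : Type} [NormedAddCommGroup E] [NormedSpace ℝ E] [NormedAddCommGroup F]
  [NormedSpace ℝ F] [NormedAddCommGroup G] [NormedSpace ℝ G]

/-- smooth near a point -/
def SmA (f : E → F) (a : E) : Prop := ∀ᶠ y in 𝓝 a, ContDiffAt ℝ ∞ f y

lemma SmA.cd {f : E → F} {a : E} (h : SmA f a) : ContDiffAt ℝ ∞ f a := h.self_of_nhds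

lemma SmA.diff {f : E → F} {a : E} (h : SmA f a) : DifferentiableAt ℝ f a :=
  h.cd.differentiableAt (by simp)

lemma SmA.cont {f : E → F} {a : E} (h : SmA f a) : ContinuousAt f a := h.cd.continuousAt

lemma SmA.ev {f : E → F} {a : E} (h : SmA f a) : ∀ᶠ y in 𝓝 a, SmA f y := h.eventually_nhds

lemma smA_of {f : E → F} (h : ContDiff ℝ ∞ f) (a : E) : SmA f a :=
  .of_forall fun _ => h.contDiffAt

lemma SmA.comp {g : F → G} {f : E → F} {a : E} (hg : SmA g (f a)) (hf : SmA f a) :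
    SmA (g ∘ f) a :=
  ((hf.cont.eventually hg).and hf).mono fun y hy => hy.1.comp y hy.2

lemma SmA.prod {f : E → F} {g : E → G} {a : E} (hf : SmA f a) (hg : SmA g a) :
    SmA (fun x => (f x, g x)) a := (hf.and hg).mono fun _ hy => hy.1.prodMk hy.2

lemma SmA.congr {f g : E → F} {a : E} (hf : SmA f a) (h : g =ᶠ[𝓝 a] f) : SmA g a :=
  (hf.and h.eventuallyEq_nhds).mono fun _ hy => hy.1.congr_of_eventuallyEq hy.2

lemma SmA.cont_fderiv {f : E → F} {a : E} (h : SmA f a) : ContinuousAt (fderiv ℝ f) a :=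
  (h.cd.fderiv_right (m := 0) (by simp)).continuousAt

lemma SmA.slice {Φ : E × F → G} {a : E × F} (h : SmA Φ a) : SmA (fun x => Φ (a.1, x)) a.2 :=
  SmA.comp (f := fun x => (a.1, x)) h (smA_of (by fun_prop) _)

lemma fderiv_slice {Φ : E × F → G} {a : E × F} (h : DifferentiableAt ℝ Φ a) (ξ : F) :
    fderiv ℝ (fun x => Φ (a.1, x)) a.2 ξ = fderiv ℝ Φ a (0, ξ) := by
  have := (HasFDerivAt.comp (f := fun x => (a.1, x)) a.2 h.hasFDerivAt
    (hasFDerivAt_prodMk_right (𝕜 := ℝ) a.1 a.2)).fderiv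
  exact DFunLike.congr_fun this ξ

lemma ev_bound [FiniteDimensional ℝ E] {Z : Type} [TopologicalSpace Z] {L : Z → E →L[ℝ] F} {z : Z}
    (hc : ContinuousAt L z) (hi : Injective (L z)) :
    ∃ c : ℝ, 0 < c ∧ ∀ᶠ y in 𝓝 z, ∀ ξ, ‖ξ‖ ≤ c * ‖L y ξ‖ := by
  obtain ⟨K, hK, h⟩ := LinearMap.exists_antilipschitzWith (L z : E →ₗ[ℝ] F)
    (LinearMap.ker_eq_bot.mpr hi)
  have hK' : (0 : ℝ) < K := hK
  refine ⟨2 * K, by positivity, ?_⟩
  filter_upwards [Metric.tendsto_nhds.mp hc (1 / (2 * K)) (by positivity)] with y hy ξ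
  have a1 : ‖ξ‖ ≤ K * ‖L z ξ‖ := ZeroHomClass.bound_of_antilipschitz _ h ξ
  have a2 : ‖L y ξ - L z ξ‖ ≤ 1 / (2 * K) * ‖ξ‖ :=
    (L y - L z).le_of_opNorm_le (by rw [← dist_eq_norm]; exact hy.le) ξ
  have a3 := norm_sub_norm_le (L z ξ) (L y ξ)
  rw [norm_sub_rev] at a3
  have a4 : K * (1 / (2 * K) * ‖ξ‖) = ‖ξ‖ / 2 := by field_simp
  nlinarith

lemma inj_of_bound {L : E →L[ℝ] F} {c : ℝ} (h : ∀ ξ, ‖ξ‖ ≤ c * ‖L ξ‖) : Injective L :=
  (injective_iff_map_eq_zero L).mpr fun ξ hξ => by simpa [hξ] using h ξ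

lemma loc_inv [FiniteDimensional ℝ E] {Θ : E → E} {a : E} (hs : SmA Θ a)
    (hi : Injective (fderiv ℝ Θ a)) : ∃ Ξ : E → E, SmA Ξ (Θ a) ∧ (∀ᶠ y in 𝓝 a, Ξ (Θ y) = y) ∧
      ∀ᶠ y in 𝓝 (Θ a), Θ (Ξ y) = y := by
  have eq : ∀ L : E →L[ℝ] E, Injective L → ∃ e : E ≃L[ℝ] E, (e : E →L[ℝ] E) = L := fun L hL =>
    ⟨(LinearEquiv.ofInjectiveEndo (L : E →ₗ[ℝ] E) hL).toContinuousLinearEquiv, rfl⟩
  obtain ⟨e, he⟩ := eq _ hi
  have hd : HasFDerivAt Θ (e : E →L[ℝ] E) a := he ▸ hs.diff.hasFDerivAt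
  let f := hs.cd.toOpenPartialHomeomorph Θ hd (by simp)
  have h1 : a ∈ f.source := hs.cd.mem_toOpenPartialHomeomorph_source hd (by simp)
  obtain ⟨c, -, hc⟩ := ev_bound hs.cont_fderiv hi
  refine ⟨f.symm, ?_, f.eventually_left_inverse h1, f.eventually_right_inverse' h1⟩
  filter_upwards [(f.tendsto_symm h1).eventually (hs.ev.and hc),
    f.open_target.mem_nhds (f.map_source h1)] with y hy hy'
  obtain ⟨e', he'⟩ := eq _ (inj_of_bound hy.2)
  exact f.contDiffAt_symm hy' (he' ▸ hy.1.diff.hasFDerivAt) hy.1.cd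

lemma loc_inj [FiniteDimensional ℝ E] {κ : E → E} {a : E} (hs : SmA κ a)
    (hi : Injective (fderiv ℝ κ a)) :
    ∀ᶠ p : E × E in 𝓝 (a, a), κ p.1 = κ p.2 → p.1 = p.2 := by
  obtain ⟨Ξ, -, h, -⟩ := loc_inv hs hi
  filter_upwards [h.prod_nhds h] with p hp e
  rw [← hp.1, e, hp.2]

lemma inj_of_inv {κ Ξ : E → E} {a : E} (h1 : DifferentiableAt ℝ κ a)
    (h2 : DifferentiableAt ℝ Ξ (κ a)) (h : ∀ᶠ y in 𝓝 a, Ξ (κ y) = y) :
    Injective (fderiv ℝ κ a) := by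
  have e : Ξ ∘ κ =ᶠ[𝓝 a] id := h
  have := e.fderiv_eq (𝕜 := ℝ)
  rw [fderiv_comp a h2 h1, fderiv_id] at this
  exact LeftInverse.injective (g := fderiv ℝ Ξ (κ a)) fun ξ => DFunLike.congr_fun this ξ

/-- maps that change one coordinate only -/
lemma inj_upd {n : ℕ} {κ : (Fin n → ℝ) → Fin n → ℝ} {x : Fin n → ℝ} (d : Fin n)
    (hκ : DifferentiableAt ℝ κ x) (h1 : ∀ y i, i ≠ d → κ y i = y i) {c : ℝ} (hc : c ≠ 0)
    (h2 : HasDerivAt (fun u => κ (update x d u) d) c (x d)) : Injective (fderiv ℝ κ x) := by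
  refine (injective_iff_map_eq_zero _).mpr fun ξ hξ => ?_
  have a0 := hasFDerivAt_pi'.mp hκ.hasFDerivAt
  have a1 : ∀ i, i ≠ d → ξ i = 0 := fun i hi => by
    have b1 := a0 i
    simp only [h1 _ i hi] at b1
    have := DFunLike.congr_fun (b1.unique (hasFDerivAt_apply i x)) ξ
    simpa [hξ] using this.symm
  have a2 : ξ = ξ d • Pi.single d (1 : ℝ) := by
    ext i
    by_cases hi : i = d
    · simp [hi]
    · simp [hi, a1 i hi]
  have a3 := ((update_eq_self d x).symm ▸ a0 d :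
    HasFDerivAt _ _ (update x d (x d))).comp_hasDerivAt (x d) (hasDerivAt_update x d (x d))
  have a4 := congrFun hξ d
  rw [a2, map_smul] at a4
  have a5 := a3.unique h2
  simp only [update_eq_self] at a5
  change ξ d * _ = 0 at a4
  rw [a2, (mul_eq_zero.mp a4).resolve_right (fun h => hc (a5.symm.trans h)), zero_smul]

end

end Pool.Agent.P.MP_878f14_gt.MT
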