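import Pool.Agent.P.MP_878f14_gt.MT.Sd
import Pool.Agent.P.MP_878f14_gt.MT.Calc

/-! Germs of foliations along products of a simplex and a subset. -/

namespace Pool.Agent.P.MP_878f14_gt.MT

open Topology Function Set FreeAbelianGroup PS
open Filter hiding map
open scoped ContDiff

noncomputable section

section Germs

variable {Z Z' Z'' β β' : Type} [TopologicalSpace Z] [TopologicalSpace Z'] [TopologicalSpace Z'']

/-- the germ of the relation given by the fibres of `f` -/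
def pl (f : Z → β) (w : Z) : Filter (Z × Z) := 𝓝[{p | f p.1 = f p.2}] (w, w)

/-- pull back -/
def pb (g : Z' → Z) (R : Z → Filter (Z × Z)) (w : Z') : Filter (Z' × Z') :=
  𝓝 (w, w) ⊓ comap (Prod.map g g) (R (g w))

lemma nhds_le_comap {g : Z' → Z} {w : Z'} (hg : ContinuousAt g w) :
    𝓝 (w, w) ≤ comap (Prod.map g g) (𝓝 (g w, g w)) :=
  (hg.prodMap' hg).tendsto.le_comap

omit [TopologicalSpace Z] in
lemma pb_pb {g : Z'' → Z'} {w : Z''} (hg : ContinuousAt g w) (g' : Z' → Z)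
    (R : Z → Filter (Z × Z)) : pb g (pb g' R) w = pb (g' ∘ g) R w := by
  rw [pb, pb, comap_inf, ← inf_assoc, inf_eq_left.mpr (nhds_le_comap hg), comap_comap]
  rfl

lemma pb_gm {g : Z' → Z} {w : Z'} (hg : ContinuousAt g w) {R : Z → Filter (Z × Z)} {s : Set (Z × Z)}
    (h : R (g w) = 𝓝[s] (g w, g w)) : pb g R w = 𝓝[Prod.map g g ⁻¹' s] (w, w) := by
  rw [pb, h, nhdsWithin, comap_inf, ← inf_assoc, inf_eq_left.mpr (nhds_le_comap hg), comap_principal]
  rfl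

lemma pb_pl {g : Z' → Z} {w : Z'} (hg : ContinuousAt g w) {R : Z → Filter (Z × Z)} {f : Z → β}
    (h : R (g w) = pl f (g w)) : pb g R w = pl (f ∘ g) w := pb_gm hg h

lemma gm_ev {s t : Set (Z × Z)} {w : Z} (h : 𝓝[s] (w, w) = 𝓝[t] (w, w)) :
    ∀ᶠ w' in 𝓝 w, 𝓝[s] (w', w') = 𝓝[t] (w', w') := by
  simp only [nhdsWithin_eq_iff_eventuallyEq] at h ⊢
  exact (continuous_id.prodMk continuous_id).continuousAt.eventually h.eventuallyEq_nhds

lemma pl_eq {f : Z → β} {f' : Z → β'} {w : Z} :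
    pl f w = pl f' w ↔ ∀ᶠ p : Z × Z in 𝓝 (w, w), f p.1 = f p.2 ↔ f' p.1 = f' p.2 :=
  nhdsWithin_eq_iff_eventuallyEq.trans eventuallyEq_set

lemma pl_congr {f f' : Z → β} {w : Z} (h : f =ᶠ[𝓝 w] f') : pl f w = pl f' w :=
  pl_eq.mpr ((h.prod_nhds h).mono fun p hp => by rw [hp.1, hp.2])

end Germs

abbrev V (n : ℕ) : Type := Fin n → ℝ

abbrev Am (n k : ℕ) : Type := (Fin k → ℝ) × V n

abbrev W (n k : ℕ) : Type := Sx k × V n

abbrev X (n k : ℕ) : Type := W n k → Filter (W n k × W n k)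

variable {n q r k : ℕ}

/-- the inclusion in the ambient space -/
def vl (w : W n k) : Am n k := (w.1.1, w.2)

lemma continuous_vl : Continuous (vl : W n k → Am n k) :=
  continuous_subtype_val.prodMap continuous_id

lemma cont_of_vl {Z : Type} [TopologicalSpace Z] {g : Z → W n k} {z : Z}
    (h : ContinuousAt (fun z => vl (g z)) z) : ContinuousAt g z :=
  (IsInducing.subtypeVal.prodMap IsInducing.id).continuousAt_iff.mpr h

/-- the horizontal foliation -/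
def tv : X n k := pl Prod.snd

/-- the foliation given by a first integral -/
def plq (Φ : Am n k → V n) : X n k := pl (Φ ∘ vl)

/-- charts -/
def Ch (Φ : Am n k → V n) (a : Am n k) : Prop :=
  SmA Φ a ∧ Injective (fderiv ℝ (fun x => Φ (a.1, x)) a.2)

lemma ch_snd (a : Am n k) : Ch Prod.snd a :=
  ⟨smA_of contDiff_snd a, by simpa using injective_id⟩

lemma Ch.bound {Φ : Am n k → V n} {a : Am n k} (h : Ch Φ a) :
    ∃ c : ℝ, 0 < c ∧ ∀ᶠ y in 𝓝 a, ∀ ξ, ‖ξ‖ ≤ c * ‖fderiv ℝ Φ y (0, ξ)‖ :=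
  ev_bound (L := fun y => (fderiv ℝ Φ y).comp (ContinuousLinearMap.inr ℝ _ _))
    (h.1.cont_fderiv.clm_comp continuousAt_const) fun ξ ξ' e => h.2 (by
      rw [fderiv_slice h.1.diff, fderiv_slice h.1.diff]; exact e)

lemma Ch.ev {Φ : Am n k → V n} {a : Am n k} (h : Ch Φ a) : ∀ᶠ y in 𝓝 a, Ch Φ y := by
  obtain ⟨c, -, hc⟩ := h.bound
  filter_upwards [hc, h.1.ev] with y h1 h2
  exact ⟨h2, inj_of_bound (c := c) fun ξ => by rw [fderiv_slice h2.diff]; exact h1 ξ⟩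

lemma Ch.comp {Φ : Am n k → V n} {α : (Fin r → ℝ) → Fin k → ℝ} {κ : Am n r → V n} {a : Am n r}
    (h : Ch Φ (α a.1, κ a)) (hα : ContDiff ℝ ∞ α) (hκ : Ch κ a) :
    Ch (Φ ∘ fun y => (α y.1, κ y)) a := by
  refine ⟨SmA.comp (f := fun y : Am n r => (α y.1, κ y)) h.1 ((smA_of (hα.comp contDiff_fst) a).prod hκ.1), ?_⟩
  have := fderiv_comp (g := fun y => Φ (α a.1, y)) (f := fun x => κ (a.1, x)) a.2
    h.1.slice.diff hκ.1.slice.diff
  exact (congrArg (fun L : V n →L[ℝ] V n => Injective L) this).mpr (h.2.comp hκ.2)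

lemma pl_triv {f : W n k → V n} {w : W n k} {κ : V n → V n} (h : ∀ᶠ y in 𝓝 w, f y = κ y.2)
    (hs : SmA κ w.2) (hi : Injective (fderiv ℝ κ w.2)) : pl f w = tv w := by
  rw [pl_congr (f' := κ ∘ Prod.snd) h, tv, pl_eq]
  filter_upwards [(continuous_snd.prodMap continuous_snd).continuousAt.eventually (loc_inj hs hi)]
    with p hp using ⟨hp, congrArg κ⟩

/-- locally given by charts -/
def Lo (P : (Am n k → V n) → Am n k → Prop) (A : Set (V n)) (R : X n k) : Prop :=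
  ∀ w : W n k, w.2 ∈ A → ∃ Φ, P Φ (vl w) ∧ ∀ᶠ w' in 𝓝 w, w'.2 ∈ A → R w' = plq Φ w'

/-- foliations along `A` with support in `K` -/
def YK (A K : Set (V n)) (k : ℕ) : Set (X n k) := {R | Lo Ch A R ∧ ∀ w, w.2 ∉ K → R w = tv w}

/-- foliations along `A` with compact support in `O` -/
def Y (A O : Set (V n)) (k : ℕ) : Set (X n k) :=
  {R | ∃ K, IsCompact K ∧ K ⊆ A ∩ O ∧ R ∈ YK A K k}

/-- the presheaf of all germs of relations -/
abbrev FP (n : ℕ) : AP :=
  ⟨X n, fun v => pb (Prod.map (aff v) id), fun v w R => funext fun y => by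
    rw [pb_pb ((continuous_aff v).prodMap continuous_id).continuousAt]
    exact congrArg (fun g => pb g R y) (funext fun y => Prod.ext (aff_aff w v y.1) rfl)⟩

open Classical in
/-- restriction -/
def rs (A : Set (V n)) (R : X n k) : X n k := fun w => if w.2 ∈ A then R w else tv w

variable {A A' O O' K K' : Set (V n)} {R : X n k} {P : (Am n k → V n) → Am n k → Prop}

lemma rs_pos {w : W n k} (h : w.2 ∈ A) : rs A R w = R w := if_pos h

lemma rs_neg {w : W n k} (h : w.2 ∉ A) : rs A R w = tv w := if_neg h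

lemma Lo.pb {P' : (Am n r → V n) → Am n r → Prop} (h : Lo P A R) {g : W n r → W n k}
    {G : Am n r → Am n k} (hG : ∀ w, vl (g w) = G (vl w)) (hc : Continuous g)
    (hA : ∀ w, w.2 ∈ A' → (g w).2 ∈ A)
    (hP : ∀ w, w.2 ∈ A' → ∀ Φ, P Φ (G (vl w)) → P' (Φ ∘ G) (vl w)) : Lo P' A' (pb g R) := by
  intro w hw
  obtain ⟨Φ, h1, h2⟩ := h (g w) (hA w hw)
  refine ⟨Φ ∘ G, hP w hw Φ (hG w ▸ h1), ?_⟩
  filter_upwards [hc.continuousAt.eventually h2] with y hy hy'
  rw [pb_pl hc.continuousAt (hy (hA y hy'))]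
  exact congrArg (fun f => pl f y) (funext fun y => congrArg Φ (hG y))

lemma Lo.congr {R' : X n k} (h : Lo P A R) (e : ∀ w, w.2 ∈ A → R' w = R w) : Lo P A R' := by
  intro w hw
  obtain ⟨Φ, h1, h2⟩ := h w hw
  exact ⟨Φ, h1, h2.mono fun y hy hy' => (e y hy').trans (hy hy')⟩

lemma Lo.rs (h : Lo P A R) : Lo P A (rs A R) := h.congr fun _ => rs_pos

lemma Lo.mono (h : Lo P A R) (hA : A' ⊆ A) : Lo P A' R := fun w hw =>
  (h w (hA hw)).imp fun _ h => ⟨h.1, h.2.mono fun _ hy hy' => hy (hA hy')⟩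

lemma Lo.imp {P' : (Am n k → V n) → Am n k → Prop} (h : Lo P A R)
    (hP : ∀ Φ (w : W n k), P Φ (vl w) → P' Φ (vl w)) : Lo P' A R := fun w hw =>
  (h w hw).imp fun _ h => ⟨hP _ _ h.1, h.2⟩

lemma Lo.ev (h : Lo P A R) {w : W n k} (hw : w.2 ∈ A) {s : Set (W n k × W n k)}
    (e : R w = 𝓝[s] (w, w)) : ∀ᶠ y in 𝓝 w, y.2 ∈ A → R y = 𝓝[s] (y, y) := by
  obtain ⟨Φ, -, h2⟩ := h w hw
  filter_upwards [h2, gm_ev ((h2.self_of_nhds hw).symm.trans e)] with y a b hy
  exact (a hy).trans b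

lemma pb_tv {g : W n r → W n k} {w : W n r} (hc : ContinuousAt g w) (h : R (g w) = tv (g w))
    (e : ∀ᶠ y in 𝓝 w, (g y).2 = y.2) : pb g R w = tv w :=
  (pb_pl hc h).trans (pl_congr e)

lemma ca (v : Fin r → Sx k) : Continuous (Prod.map (aff v) id : W n r → W n k) :=
  (continuous_aff v).prodMap continuous_id

lemma A_tv (v : Fin r → Sx k) {w : W n r} (h : R (aff v w.1, w.2) = tv (aff v w.1, w.2)) :
    (FP n).A v R w = tv w := pb_tv (ca v).continuousAt h (.of_forall fun _ => rfl)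

lemma YK.af (h : R ∈ YK A K k) (v : Fin r → Sx k) : (FP n).A v R ∈ YK A K r :=
  ⟨h.1.pb (G := fun y => (lin v y.1, y.2)) (fun _ => rfl) (ca v) (fun _ h => h)
    fun _ _ _ hΦ => hΦ.comp (lin v).contDiff (ch_snd _), fun _ hw => A_tv v (h.2 _ hw)⟩

lemma Y.af (h : R ∈ Y A O k) (v : Fin r → Sx k) : (FP n).A v R ∈ Y A O r :=
  h.imp fun _ h => ⟨h.1, h.2.1, YK.af h.2.2 v⟩

lemma cl_YK : Cl (P := (FP n).ps) (YK A K) := fun _ _ h => YK.af h _

lemma cl_Y : Cl (P := (FP n).ps) (Y A O) := fun _ _ h => Y.af h _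

lemma YK.mono (h : R ∈ YK A K k) (hK : K ⊆ K') : R ∈ YK A K' k :=
  ⟨h.1, fun w hw => h.2 w fun h' => hw (hK h')⟩

lemma Y.mono (h : R ∈ Y A O k) (hO : O ⊆ O') : R ∈ Y A O' k :=
  h.imp fun _ h => ⟨h.1, h.2.1.trans (inter_subset_inter_right _ hO), h.2.2⟩

lemma Y.gm (h : R ∈ Y A O k) (w : W n k) : ∃ Φ, Ch Φ (vl w) ∧ R w = plq Φ w := by
  obtain ⟨K, -, h1, h2, h3⟩ := h
  by_cases hw : w.2 ∈ K
  · exact (h2 w (h1 hw).1).imp fun Φ h => ⟨h.1, h.2.self_of_nhds (h1 hw).1⟩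
  · exact ⟨_, ch_snd _, h3 w hw⟩

lemma Y.pb_id (h : R ∈ Y A O k) {g : W n k → W n k} {w : W n k} (e : g =ᶠ[𝓝 w] id) :
    pb g R w = R w := by
  obtain ⟨Φ, -, h1⟩ := Y.gm h w
  have a : g w = w := e.eq_of_nhds
  rw [pb_pl (continuousAt_id.congr e.symm) (f := Φ ∘ vl) (by rw [a]; exact h1), h1]
  exact pl_congr (e.mono fun y hy => by rw [comp_apply, hy]; rfl)

lemma Y.A_id (h : R ∈ Y A O k) : (FP n).A vx R = R :=
  funext fun _ => Y.pb_id h (.of_forall fun y => Prod.ext (aff_id y.1) rfl)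

lemma tv_mem : tv ∈ Y A O k :=
  ⟨∅, isCompact_empty, empty_subset _, fun _ _ => ⟨_, ch_snd _, .of_forall fun _ _ => rfl⟩,
    fun _ _ => rfl⟩

lemma A_rs (v : Fin r → Sx k) (R : X n k) : rs A ((FP n).A v R) = (FP n).A v (rs A R) := by
  funext w
  by_cases hw : w.2 ∈ A
  · rw [rs_pos hw]
    exact congrArg (fun F => 𝓝 (w, w) ⊓ comap _ F) (rs_pos (w := (aff v w.1, w.2)) hw).symm
  · rw [rs_neg hw, A_tv v (rs_neg hw)]

lemma Y.inter (h : R ∈ Y A O k) (h' : R ∈ Y A O' k) : R ∈ Y A (O ∩ O') k := by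
  obtain ⟨K, a1, a2, a3⟩ := h
  obtain ⟨K', b1, b2, b3⟩ := h'
  refine ⟨K ∩ K', a1.inter b1, fun x hx => ⟨(a2 hx.1).1, (a2 hx.1).2, (b2 hx.2).2⟩, a3.1,
    fun w hw => ?_⟩
  exact (not_and_or.mp hw).elim (a3.2 w) (b3.2 w)

lemma tube {p : W n k → Prop} {x : V n} (h : ∀ t, ∀ᶠ w in 𝓝 (t, x), p w) :
    ∀ᶠ y in 𝓝 x, ∀ t, p (t, y) :=
  (isCompact_univ.eventually_forall_of_forall_eventually (P := fun y t => p (t, y))
    fun t _ => (continuous_swap.tendsto (x, t)).eventually (h t)).mono fun _ hy t => hy t trivial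

lemma Y.shrink (h : R ∈ Y A O k) (e : ∀ w, w.2 ∉ O' → R w = tv w) : R ∈ Y A (O ∩ O') k := by
  obtain ⟨K, a1, a2, a3⟩ := h
  refine ⟨{x ∈ K | ∃ t, R (t, x) ≠ tv (t, x)}, a1.of_isClosed_subset ?_ (sep_subset _ _),
    fun x ⟨hx, t, ht⟩ => ⟨(a2 hx).1, (a2 hx).2, by_contra fun h => ht (e _ h)⟩, a3.1,
    fun w hw => by_contra fun h => hw ⟨by_contra fun h' => h (a3.2 w h'), w.1, h⟩⟩
  refine isClosed_iff_frequently.mpr fun x hx => ?_
  have hK : x ∈ K := a1.isClosed.mem_of_frequently_of_tendsto (hx.mono fun _ h => h.1) tendsto_id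
  refine ⟨hK, by_contra fun h => ?_⟩
  push Not at h
  obtain ⟨y, ⟨h1, t, h2⟩, h3⟩ := (hx.and_eventually
    (tube fun t => a3.1.ev (w := (t, x)) (a2 hK).1 (h t))).exists
  exact h2 (h3 t (a2 h1).1)

lemma exists_K {z : FA (X n k)} (hz : z ∈ C (Y A O k)) :
    ∃ K, IsCompact K ∧ K ⊆ A ∩ O ∧ z ∈ C (YK A K k) := by
  induction hz using AddSubgroup.closure_induction with
  | mem z hz =>
    obtain ⟨R, ⟨K, h1, h2, h3⟩, rfl⟩ := hz
    exact ⟨K, h1, h2, of_mem h3⟩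
  | zero => exact ⟨∅, isCompact_empty, empty_subset _, zero_mem _⟩
  | add x y _ _ hx hy =>
    obtain ⟨K, a1, a2, a3⟩ := hx
    obtain ⟨K', b1, b2, b3⟩ := hy
    exact ⟨K ∪ K', a1.union b1, union_subset a2 b2,
      add_mem (C_mono (fun _ h => YK.mono h subset_union_left) a3)
        (C_mono (fun _ h => YK.mono h subset_union_right) b3)⟩
  | neg x _ hx => exact hx.imp fun K h => ⟨h.1, h.2.1, neg_mem h.2.2⟩

instance : Subsingleton (X n 0) :=
  ⟨fun _ _ => funext fun w => absurd w.1.2.2 (by simp)⟩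

lemma bd_one (R : X n 1) : (FP n).ps.bd (of R) = of tv := by
  rw [bd_of, al, Fin.sum_univ_one, Subsingleton.elim ((FP n).ps.p _ R) tv]
  simp

lemma ex_zero : Ex (P := (FP n).ps) (Y A O) 0 := fun _ hz _ =>
  C_map (AddMonoidHom.id _) (B (P := (FP n).ps) (Y A O) 0) (fun R _ => ⟨of tv, of_mem tv_mem, by
    rw [bd_one, Subsingleton.elim R tv]; rfl⟩) hz

lemma Y.one {R : X n 1} (h : R ∈ Y A O 1) : R = tv := by
  funext w
  obtain ⟨Φ, h1, h2⟩ := Y.gm h w
  rw [h2]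
  exact pl_triv (κ := fun x => Φ (w.1.1, x)) (.of_forall fun y => by
    rw [Subsingleton.elim w.1 y.1]; rfl) h1.1.slice h1.2

lemma ex_one : Ex (P := (FP n).ps) (Y A O) 1 := fun z hz h0 => by
  have := C_eq (AddMonoidHom.id _) ((map fun _ => tv).comp (FP n).ps.bd) (fun R hR => by
    rw [AddMonoidHom.comp_apply, bd_one, Y.one hR]; rfl) hz
  rw [AddMonoidHom.comp_apply, show (FP n).ps.bd z = 0 from h0, map_zero] at this
  exact (show z = 0 from this) ▸ zero_mem _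

/-- disjoint supports -/
theorem ac_union {m : ℕ} (hO : IsOpen O) (hO' : IsOpen O') (hd : Disjoint O O')
    (h : Ac (P := (FP n).ps) m (Y A O)) (h' : Ac (P := (FP n).ps) m (Y A O')) :
    Ac (P := (FP n).ps) m (Y A (O ∪ O')) := by
  classical
  have key : ∀ {O O' : Set (V n)}, IsOpen O → IsOpen O' → Disjoint O O' → ∀ k,
      ∀ R ∈ Y A (O ∪ O') k, rs O R ∈ Y A O k := by
    rintro O O' hO hO' hd k R ⟨K, a1, a2, a3, a4⟩
    refine ⟨K \ O', a1.diff hO', fun x hx => ⟨(a2 hx.1).1, (a2 hx.1).2.resolve_right hx.2⟩,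
      fun w hw => ?_, fun w hw => ?_⟩
    · by_cases h1 : w.2 ∈ O
      · obtain ⟨Φ, b1, b2⟩ := a3 w hw
        refine ⟨Φ, b1, ?_⟩
        filter_upwards [b2, continuous_snd.continuousAt.eventually (hO.mem_nhds h1)] with y c1 c2 c3
        rw [rs_pos c2, c1 c3]
      · refine ⟨_, ch_snd _, ?_⟩
        have : w.2 ∈ (K \ O')ᶜ := fun h => h1 ((a2 h.1).2.resolve_right h.2)
        filter_upwards [continuous_snd.continuousAt.eventually
          ((a1.diff hO').isClosed.isOpen_compl.mem_nhds this)] with y c1 _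
        by_cases h2 : y.2 ∈ O
        · exact (rs_pos h2).trans (a4 y fun h => c1 ⟨h, disjoint_left.mp hd h2⟩)
        · exact rs_neg h2
    · by_cases h2 : w.2 ∈ O
      · exact (rs_pos h2).trans (a4 w fun h => hw ⟨h, disjoint_left.mp hd h2⟩)
      · exact rs_neg h2
  refine kunneth (P := (FP n).ps) cl_Y cl_Y cl_Y (fun _ _ h => Y.A_id h) (fun _ _ h => Y.A_id h)
    (fun R R' w => if w.2 ∈ O then R w else R' w) (fun φ R R' => ?_) ?_ (fun _ => rs O)
    (fun _ => rs O') (fun _ _ _ => A_rs _ _) (fun _ _ _ => A_rs _ _) (key hO hO' hd)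
    (fun k R hR => key hO' hO hd.symm k R (union_comm O O' ▸ hR)) ?_ (fun _ => tv)
    (fun _ => tv_mem) (fun _ _ => funext fun _ => A_tv _ rfl) h h'
  · funext w
    change 𝓝 (w, w) ⊓ comap _ (if w.2 ∈ O then _ else _) = _
    split_ifs <;> rfl
  · rintro k R ⟨K, a1, a2, a3, a4⟩ R' ⟨K', b1, b2, b3, b4⟩
    refine ⟨K ∪ K', a1.union b1, union_subset (a2.trans (inter_subset_inter_right _ subset_union_left))
      (b2.trans (inter_subset_inter_right _ subset_union_right)), fun w hw => ?_, fun w hw => ?_⟩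
    · by_cases h1 : w.2 ∈ O
      · obtain ⟨Φ, c1, c2⟩ := a3 w hw
        refine ⟨Φ, c1, ?_⟩
        filter_upwards [c2, continuous_snd.continuousAt.eventually (hO.mem_nhds h1)] with y d1 d2 d3
        exact (if_pos d2).trans (d1 d3)
      · obtain ⟨Φ, c1, c2⟩ := b3 w hw
        refine ⟨Φ, c1, ?_⟩
        filter_upwards [c2, continuous_snd.continuousAt.eventually
          (a1.isClosed.isOpen_compl.mem_nhds fun h => h1 (a2 h).2)] with y d1 d2 d3
        split_ifs with h2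
        · rw [a4 y d2, ← d1 d3, b4 y fun h => disjoint_left.mp hd h2 (b2 h).2]
        · exact d1 d3
    · beta_reduce
      split_ifs
      exacts [a4 w fun h => hw (Or.inl h), b4 w fun h => hw (Or.inr h)]
  · rintro k R ⟨K, -, a2, -, a4⟩
    funext w
    split_ifs with h1
    · exact rs_pos h1
    · by_cases h2 : w.2 ∈ O'
      · exact rs_pos h2
      · rw [rs_neg h2, a4 w fun h => (a2 h).2.elim h1 h2]

end

end Pool.Agent.P.MP_878f14_gt.MT
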