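import Pool.Agent.P.MP_878f14_gt.MT.Fol

/-! Moving foliations along the fibres. -/

namespace Pool.Agent.P.MP_878f14_gt.MT

open Topology Function Set FreeAbelianGroup PS Real
open Filter hiding map
open scoped ContDiff

noncomputable section

variable {n q r k : ℕ} {A A' O K : Set (V n)} {R : X n k}

/-- the time coordinate on a simplex of a prism -/
def tm (v : Fin r → Fin k × Bool) : (Fin r → ℝ) →L[ℝ] ℝ :=
  ∑ i, if (v i).2 then ContinuousLinearMap.proj i else 0

lemma tm_apply (v : Fin r → Fin k × Bool) (s : Fin r → ℝ) :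
    tm v s = ∑ i, if (v i).2 then s i else 0 := by
  simp only [tm, _root_.sum_apply]
  exact Finset.sum_congr rfl fun i _ => by split_ifs <;> rfl

lemma tm_mem (v : Fin r → Fin k × Bool) (s : Sx r) : tm v s.1 ∈ Icc (0 : ℝ) 1 := by
  rw [tm_apply, ← s.2.2]
  exact ⟨Finset.sum_nonneg fun i _ => by split_ifs; exacts [s.2.1 i, le_rfl],
    Finset.sum_le_sum fun i _ => by split_ifs; exacts [le_rfl, s.2.1 i]⟩

lemma tm_aff (v : Fin r → Fin k × Bool) (φ : Fin q → Fin r) (s : Sx q) :
    tm v (aff (vx ∘ φ) s).1 = tm (v ∘ φ) s.1 := by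
  have : ∀ i, (aff (vx ∘ φ) s).1 i = ∑ l, if φ l = i then s.1 l else 0 := fun i =>
    (aff_apply _ s i).trans (Finset.sum_congr rfl fun l _ => by
      simp [Pi.single_apply, eq_comm (a := i)]; rfl)
  simp only [tm_apply, this]
  rw [← Finset.sum_congr rfl fun i _ => Finset.sum_ite_irrel ((v i).2 = true) Finset.univ
    (fun l => if φ l = i then s.1 l else 0) (fun _ => 0) |>.trans (by rw [Finset.sum_const_zero]),
    Finset.sum_comm]
  refine Finset.sum_congr rfl fun l _ => ?_
  rw [Finset.sum_eq_single (φ l) (fun i _ hi => by simp [hi.symm]) (by simp)]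
  simp

/-- the map attached to a simplex of a prism -/
def gv (F : ℝ → W n k → W n k) (v : Fin r → Fin k × Bool) (w : W n r) : W n k :=
  F (tm v w.1.1) (aff (fun i => vx (v i).1) w.1, w.2)

lemma continuous_gv {F : ℝ → W n k → W n k} (hc : Continuous fun p : ℝ × W n k => F p.1 p.2)
    (v : Fin r → Fin k × Bool) : Continuous (gv F v) :=
  hc.comp ((((tm v).continuous.comp continuous_subtype_val).comp continuous_fst).prodMk (ca _))

theorem flow (F : ∀ {k : ℕ}, ℝ → W n k → W n k)
    (hc : ∀ k, Continuous fun p : ℝ × W n k => F p.1 p.2)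
    (hF : ∀ k (j : Fin (k + 1)) τ (w : W n k), F τ (aff (vx ∘ j.succAbove) w.1, w.2) =
      Prod.map (aff (vx ∘ j.succAbove)) id (F τ w)) {S T : (FP n).ps.Fm} (hS : Cl S)
    (h3 : ∀ R ∈ S k, ∀ v : Fin (k + 1) → Fin k × Bool, rs A (pb (gv F v) R) ∈ T (k + 1))
    {z : FA (X n k)} (hz : z ∈ C (S k)) (h0 : z ∈ (FP n).ps.Z k) :
    map (fun R => rs A (pb (F 1) R)) z - map (fun R => rs A (pb (F 0) R)) z ∈ B T k := by
  have := prism (P := (FP n).ps) (Q := (FP n).ps) hS (T := T) (fun R v => rs A (pb (gv F v) R))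
    (fun k r φ R _ v => (A_rs _ _).symm.trans (congrArg (rs A) (funext fun w => by
      refine (pb_pb (ca _).continuousAt _ _).trans (congrArg (fun g => pb g R w) ?_)
      funext y
      simp only [gv, comp_apply, Prod.map_fst, Prod.map_snd, tm_aff, aff_aff, aff_vx_comp, id]
      rfl)))
    (fun k r j R _ v => congrArg (rs A) (funext fun w => by
      refine (pb_pb (continuous_gv (hc _) v).continuousAt _ _).trans
        (congrArg (fun g => pb g R w) ?_)
      funext y
      simp only [gv, comp_apply, ← hF, aff_aff]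
      congr 3
      funext i
      exact aff_vx _ _)) h3 hz h0
  have e1 : gv F (fun i : Fin k => (i, true)) = F 1 := funext fun w => by
    rw [gv, tm_apply, aff_id]
    exact congrArg (fun t => F t w) (by simpa using w.1.2.2)
  have e0 : gv F (fun i : Fin k => (i, false)) = F 0 := funext fun w => by
    rw [gv, tm_apply, aff_id]
    exact congrArg (fun t => F t w) (by simp)
  rwa [e1, e0] at this

lemma triv_B {z : FA (X n k)} (h0 : z ∈ (FP n).ps.Z k) :
    map (fun _ => tv) z ∈ B (P := (FP n).ps) (Y A O) k := by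
  have := map_B (P := Tup Unit) (Q := (FP n).ps) (T := Y A O) (f := fun _ _ => tv)
    (fun _ _ _ => funext fun _ => A_tv _ rfl) (fun _ _ => tv_mem)
    (ex_tup () k _ (C_univ _) (map_Z (P := (FP n).ps) (Q := Tup Unit) (S := fun _ => univ)
      (f := fun _ _ _ => ()) (fun _ _ _ _ => rfl) (C_univ z) h0))
  rwa [← FreeAbelianGroup.map_comp_apply] at this

lemma Y.rs (h : R ∈ Y A O k) : rs A R = R := by
  obtain ⟨K, -, h1, -, h2⟩ := h
  funext w
  by_cases hw : w.2 ∈ A
  exacts [rs_pos hw, (rs_neg hw).trans (h2 w fun h => hw (h1 h).1).symm]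

/-- pull back by a map of the fibre -/
def st (A : Set (V n)) (κ : V n → V n) (R : X n k) : X n k := rs A (pb (Prod.map id κ) R)

lemma st_A {κ : V n → V n} (hκ : Continuous κ) (v : Fin r → Sx k) (R : X n k) :
    (FP n).A v (st A κ R) = st A κ ((FP n).A v R) :=
  (A_rs _ _).symm.trans (congrArg (rs A) (funext fun _ => (pb_pb (ca _).continuousAt _ _).trans
    (pb_pb (continuous_id.prodMap hκ).continuousAt (Prod.map (aff v) id) R).symm))

lemma st_tv {κ : V n → V n} (hκ : ContDiff ℝ ∞ κ) (hi : ∀ x, Injective (fderiv ℝ κ x))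
    {w : W n k} (h : R (w.1, κ w.2) = tv (w.1, κ w.2)) : pb (Prod.map id κ) R w = tv w :=
  (pb_pl (continuous_id.prodMap hκ.continuous).continuousAt h).trans
    (pl_triv (.of_forall fun _ => rfl) (smA_of hκ _) (hi _))

lemma st_mem {κ : V n → V n} (hκ : ContDiff ℝ ∞ κ) (hi : ∀ x, Injective (fderiv ℝ κ x))
    (hA : MapsTo κ A' A) (h : R ∈ YK A K k) : st A' κ R ∈ YK A' (A' ∩ κ ⁻¹' K) k := by
  refine ⟨(h.1.pb (G := fun y => (id y.1, κ y.2)) (fun _ => rfl)
    (continuous_id.prodMap hκ.continuous) (fun _ hw => hA hw) fun w _ Φ hΦ =>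
      hΦ.comp (κ := fun y => κ y.2) contDiff_id ⟨smA_of (hκ.comp contDiff_snd) _, hi _⟩).rs,
    fun w hw => ?_⟩
  by_cases h1 : w.2 ∈ A'
  · exact (rs_pos h1).trans (st_tv hκ hi (h.2 _ fun h2 => hw ⟨h1, h2⟩))
  · exact rs_neg h1

lemma exists_lt {f : V n → ℝ} (hf : Continuous f) (hK : IsCompact K) {a : ℝ}
    (h : ∀ x ∈ K, f x < a) : ∀ᶠ η in 𝓝[>] (0 : ℝ), ∀ x ∈ K, f x + η < a :=
  nhdsWithin_le_nhds (hK.eventually_forall_of_forall_eventually (P := fun η x => f x + η < a)
    fun x hx => ((hf.comp continuous_snd).add continuous_fst).continuousAt.eventually_lt_const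
      (by simpa using h x hx))

lemma sT_deriv (x : ℝ) : HasDerivAt smoothTransition (deriv smoothTransition x) x :=
  ((smoothTransition.contDiff (n := 1)).differentiable (by simp) x).hasDerivAt

lemma cd_upd {E : Type} [NormedAddCommGroup E] [NormedSpace ℝ E] {f : E → V n} {g : E → ℝ}
    (hf : ContDiff ℝ ∞ f) (hg : ContDiff ℝ ∞ g) (d : Fin n) :
    ContDiff ℝ ∞ fun x => update (f x) d (g x) :=
  contDiff_pi.mpr fun i => by
    by_cases h : i = d
    · simpa [h] using hg
    · simpa [h] using contDiff_pi.mp hf i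

/-- supports in a slab -/
theorem ex_slab (hA : IsClosed A) (d : Fin n) (hd : ∀ x ∈ A, ∀ y, update x d y ∈ A) {a b : ℝ}
    (hab : a < b) (h : Ex (P := (FP n).ps) (Y A univ) k) :
    Ex (P := (FP n).ps) (Y A {x | a < x d ∧ x d < b}) k := by
  intro z hz h0
  obtain ⟨w, hw, e⟩ := h z (C_mono (fun _ h => Y.mono h (subset_univ _)) hz) h0
  obtain ⟨K, a1, a2, a3⟩ := exists_K hz
  obtain ⟨K', b1, -, b3⟩ := exists_K hw
  obtain ⟨M, hM⟩ := b1.isBounded.exists_norm_le
  obtain ⟨η, ⟨c1, c2⟩, c3, c0⟩ := (((exists_lt (continuous_apply d) a1 fun x hx => (a2 hx).2.2).and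
    (exists_lt (a := -a) (continuous_apply d).neg a1 fun x hx => neg_lt_neg (a2 hx).2.1)).and
    ((show ∀ᶠ η in 𝓝[>] (0 : ℝ), η < (b - a) / 2 from nhdsWithin_le_nhds (eventually_lt_nhds
      (by linarith))).and eventually_mem_nhdsWithin)).exists
  replace c0 : 0 < η := c0
  set c := |M| + |a| + |b| + 1 with hc
  have hc0 : 0 ≤ c := by positivity
  let m : ℝ → ℝ := fun y =>
    y + c * (smoothTransition ((y - (b - η)) / (η / 2)) - smoothTransition ((a + η - y) / (η / 2)))
  have ms : ContDiff ℝ ∞ m := contDiff_id.add (contDiff_const.mul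
    ((smoothTransition.contDiff.comp (by fun_prop)).sub (smoothTransition.contDiff.comp (by fun_prop))))
  have md : ∀ y, ∃ m', 0 < m' ∧ HasDerivAt m m' y := fun y =>
    ⟨_, by
      have := smoothTransition.monotone.deriv_nonneg (x := (y - (b - η)) / (η / 2))
      have := smoothTransition.monotone.deriv_nonneg (x := (a + η - y) / (η / 2))
      rw [neg_div, mul_neg, sub_neg_eq_add]
      positivity, (hasDerivAt_id y).add ((((sT_deriv _).comp y
      (((hasDerivAt_id y).sub_const _).div_const _)).sub ((sT_deriv _).comp y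
      (((hasDerivAt_id y).const_sub _).div_const _))).const_mul c)⟩
  have mm : StrictMono m := strictMono_of_deriv_pos fun y => by
    obtain ⟨m', h1, h2⟩ := md y
    rwa [h2.deriv]
  have z1 : ∀ y, y ≤ b - η → smoothTransition ((y - (b - η)) / (η / 2)) = 0 := fun y hy =>
    smoothTransition.zero_of_nonpos (div_nonpos_of_nonpos_of_nonneg (by linarith) (by linarith))
  have z2 : ∀ y, a + η ≤ y → smoothTransition ((a + η - y) / (η / 2)) = 0 := fun y hy =>
    smoothTransition.zero_of_nonpos (div_nonpos_of_nonpos_of_nonneg (by linarith) (by linarith))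
  have mi : ∀ y, a + η ≤ y → y ≤ b - η → m y = y := fun y h1 h2 => by simp [m, z1 y h2, z2 y h1]
  let κ : V n → V n := fun x => update x d (m (x d))
  have κs : ContDiff ℝ ∞ κ := cd_upd contDiff_id (ms.comp (contDiff_apply _ _ d)) d
  have κi : ∀ x, Injective (fderiv ℝ κ x) := fun x => by
    obtain ⟨m', h1, h2⟩ := md (x d)
    exact inj_upd d (κs.differentiable (by simp) x) (fun y i hi => update_of_ne hi _ _) h1.ne'
      (by simpa [κ] using h2)
  have κK : ∀ x, κ x ∈ K' → a + η / 2 ≤ x d ∧ x d ≤ b - η / 2 ∧ ‖x‖ ≤ c := fun x hx => by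
    have h1 : ∀ i, |κ x i| ≤ |M| := fun i =>
      (norm_le_pi_norm (κ x) i).trans ((hM _ hx).trans (le_abs_self M))
    have h2 := abs_le.mp (h1 d)
    simp only [κ, update_self] at h2
    have h3 : a + η / 2 ≤ x d := by
      refine mm.le_iff_le.mp (le_trans ?_ h2.1)
      simp only [m]
      rw [z1 _ (by linarith), smoothTransition.one_of_one_le (by rw [le_div_iff₀] <;> linarith)]
      linarith [le_abs_self b, abs_nonneg a]
    have h4 : x d ≤ b - η / 2 := by
      refine mm.le_iff_le.mp (h2.2.trans ?_)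
      simp only [m]
      rw [z2 _ (by linarith), smoothTransition.one_of_one_le (by rw [le_div_iff₀] <;> linarith)]
      linarith [neg_abs_le a, abs_nonneg b]
    refine ⟨h3, h4, (pi_norm_le_iff_of_nonneg hc0).mpr fun i => ?_⟩
    by_cases hi : i = d
    · rw [hi, Real.norm_eq_abs, abs_le]
      constructor <;> linarith [neg_abs_le a, abs_nonneg b, le_abs_self b, abs_nonneg a, abs_nonneg M]
    · have := h1 i
      rw [show κ x i = x i from update_of_ne hi _ _] at this
      linarith [abs_nonneg a, abs_nonneg b, Real.norm_eq_abs (x i)]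
  refine ⟨map (st A κ) w, map_mem (t := Y A _ _) (fun R hR => ⟨A ∩ κ ⁻¹' K', ?_,
    fun x hx => ⟨hx.1, ?_⟩, st_mem κs κi (fun x hx => hd x hx _) hR⟩) b3, ?_⟩
  · exact Metric.isCompact_of_isClosed_isBounded (hA.inter (b1.isClosed.preimage κs.continuous))
      (isBounded_iff_forall_norm_le.mpr ⟨c, fun x hx => (κK x hx.2).2.2⟩)
  · exact ⟨by linarith [(κK x hx.2).1], by linarith [(κK x hx.2).2.1]⟩
  · rw [bd_map (P := (FP n).ps) (Q := (FP n).ps) (g := st A κ)
      (fun φ R _ => st_A κs.continuous _ R) hw, e]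
    refine map_self (fun R hR => ?_) a3
    have hY : R ∈ Y A univ k := ⟨K, a1, fun x hx => ⟨(a2 hx).1, trivial⟩, hR⟩
    have hk : ∀ x : V n, a + η ≤ x d → x d ≤ b - η → κ x = x := fun x h1 h2 => by
      simp only [κ, mi _ h1 h2, update_eq_self]
    have hK : ∀ x ∈ K, a + η < x d ∧ x d < b - η := fun x hx =>
      ⟨by linarith [c2 x hx, Pi.neg_apply (fun x : V n => x d) x], by linarith [c1 x hx]⟩
    rw [st, ← Y.rs hY, Y.rs hY]
    refine (congrArg (rs A) (funext fun w => ?_)).trans (Y.rs hY)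
    by_cases h1 : a + η < w.2 d ∧ w.2 d < b - η
    · refine Y.pb_id hY ?_
      have hc : Continuous fun y : W n k => y.2 d := (continuous_apply d).comp continuous_snd
      filter_upwards [hc.continuousAt.eventually_const_lt h1.1,
        hc.continuousAt.eventually_lt_const h1.2] with y h2 h3 using Prod.ext rfl (hk _ h2.le h3.le)
    · rw [hR.2 w fun h => h1 (hK _ h)]
      refine st_tv κs κi (hR.2 _ fun h => h1 ?_)
      have h2 := hK _ h
      simp only [κ, update_self] at h2
      rwa [mm.injective (mi _ h2.1.le h2.2.le)] at h2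

end

end Pool.Agent.P.MP_878f14_gt.MT
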