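import Pool.Agent.P.MP_878f14_gt.MT.Alg2

/-! Barycentric subdivision. -/

namespace Pool.Agent.P.MP_878f14_gt.MT

open FreeAbelianGroup PS
open Finset hiding map
open Filter hiding map

noncomputable section

/-- the simplex with `k` vertices -/
abbrev Sx (k : ℕ) : Type := stdSimplex ℝ (Fin k)

abbrev vx {k : ℕ} (i : Fin k) : Sx k := stdSimplex.vertex i

variable {q r k : ℕ}

/-- the linear map with given values on the basis -/
def lin (v : Fin r → Sx k) : (Fin r → ℝ) →L[ℝ] (Fin k → ℝ) :=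
  ∑ i, (ContinuousLinearMap.proj i).smulRight (v i).1

lemma lin_apply (v : Fin r → Sx k) (t : Fin r → ℝ) (l : Fin k) :
    lin v t l = ∑ i, t i * v i l := by
  simp only [lin, _root_.sum_apply, Finset.sum_apply]
  rfl

lemma sum_lin (v : Fin r → Sx k) (t : Fin r → ℝ) : ∑ l, lin v t l = ∑ i, t i := by
  simp only [lin_apply]
  rw [sum_comm]
  simp only [← mul_sum, stdSimplex.sum_eq_one, mul_one]

/-- the affine simplex with given vertices -/
def aff (v : Fin r → Sx k) (t : Sx r) : Sx k :=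
  ⟨lin v t.1, fun l => by
    rw [lin_apply]
    exact sum_nonneg fun i _ => mul_nonneg (t.2.1 i) ((v i).2.1 l), (sum_lin v _).trans t.2.2⟩

lemma aff_apply (v : Fin r → Sx k) (t : Sx r) (l : Fin k) : aff v t l = ∑ i, t i * v i l :=
  lin_apply v t.1 l

lemma continuous_aff (v : Fin r → Sx k) : Continuous (aff v) :=
  ((lin v).continuous.comp continuous_subtype_val).subtype_mk _

lemma aff_vx (v : Fin r → Sx k) (i : Fin r) : aff v (vx i) = v i := by
  ext l
  simp [aff_apply, Pi.single_apply]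

lemma aff_id (t : Sx k) : aff vx t = t := by
  ext l
  simp [aff_apply, Pi.single_apply]

lemma aff_aff (w : Fin r → Sx k) (v : Fin q → Sx r) (t : Sx q) :
    aff w (aff v t) = aff (aff w ∘ v) t := by
  ext l
  simp only [Function.comp_apply, aff_apply, sum_mul, mul_sum, mul_assoc]
  exact sum_comm

lemma aff_vx_comp (v : Fin r → Sx k) (φ : Fin q → Fin r) : aff v ∘ (vx ∘ φ) = v ∘ φ :=
  funext fun i => aff_vx v (φ i)

lemma aff_map (φ : Fin r → Fin k) (t : Sx r) : aff (vx ∘ φ) t = stdSimplex.map φ t := by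
  ext l
  simp only [aff_apply, Function.comp_apply, stdSimplex.vertex_coe, stdSimplex.map_coe,
    FunOnFinite.linearMap_apply_apply, sum_filter, Pi.single_apply, eq_comm (a := l), mul_ite,
    mul_one, mul_zero]

/-- the barycentre -/
def bary (v : Fin (r + 1) → Sx k) : Sx k := aff v stdSimplex.barycenter

/-- the subdivision -/
def sd : ∀ r, FA (Fin r → Sx k) →+ FA (Fin r → Sx k)
  | 0 => AddMonoidHom.id _
  | r + 1 => lift fun v => cone (bary v) (sd r ((Tup _).bd (of v)))

lemma sd_of (v : Fin (r + 1) → Sx k) :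
    sd (r + 1) (of v) = cone (bary v) (sd r ((Tup _).bd (of v))) := lift_apply_of _ _

lemma bd_sd (z : FA (Fin (r + 1) → Sx k)) : (Tup _).bd (sd (r + 1) z) = sd r ((Tup _).bd z) := by
  induction r with
  | zero =>
    exact hom_eq ((Tup _).bd.comp (sd 1)) ((sd 0).comp (Tup _).bd) (fun v => by
      rw [AddMonoidHom.comp_apply, sd_of, bd_cone0]; rfl) z
  | succ r ih =>
    exact hom_eq ((Tup _).bd.comp (sd (r + 2))) ((sd (r + 1)).comp (Tup _).bd) (fun v => by
      rw [AddMonoidHom.comp_apply, sd_of, bd_cone, ih, bd_bd, map_zero, map_zero, sub_zero]; rfl) z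

lemma map_sd (w : Fin k → Sx q) (z : FA (Fin r → Sx k)) :
    map (fun v => aff w ∘ v) (sd r z) = sd r (map (fun v => aff w ∘ v) z) := by
  induction r with
  | zero => rfl
  | succ r ih =>
    refine hom_eq ((map fun v : Fin (r + 1) → Sx k => aff w ∘ v).comp (sd _))
      ((sd _).comp (map fun v : Fin (r + 1) → Sx k => aff w ∘ v)) (fun v => ?_) z
    have e := bd_map (P := Tup (Sx k)) (Q := Tup (Sx q)) (f := fun v => aff w ∘ v)
      (g := fun v => aff w ∘ v) (fun _ _ _ => rfl) (C_univ (of v))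
    simp only [AddMonoidHom.comp_apply, map_of_apply, sd_of] at e ⊢
    rw [e, ← ih, cone, cone, ← FreeAbelianGroup.map_comp_apply, ← FreeAbelianGroup.map_comp_apply]
    refine congrArg (fun f => map f _) (funext fun u => funext fun i => ?_)
    exact Fin.cases (aff_aff w v _) (fun _ => rfl) i

/-- small diameter -/
def Dm (d : ℝ) (v : Fin r → Sx k) : Prop := ∀ i j l, |v i l - v j l| ≤ d

lemma abs_aff_sub (v : Fin r → Sx k) (t : Sx r) (l : Fin k) {b d : ℝ}
    (h : ∀ i, |v i l - b| ≤ d) : |aff v t l - b| ≤ d := by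
  have e : aff v t l - b = ∑ i, t i * (v i l - b) := by
    simp only [mul_sub, sum_sub_distrib, ← sum_mul, stdSimplex.sum_eq_one, one_mul, aff_apply]
  rw [e]
  refine (abs_sum_le_sum_abs _ _).trans ?_
  calc _ ≤ ∑ i, t i * d := sum_le_sum fun i _ => by
        rw [abs_mul, abs_of_nonneg (stdSimplex.zero_le t i)]
        exact mul_le_mul_of_nonneg_left (h i) (stdSimplex.zero_le t i)
    _ = d := by rw [← sum_mul, stdSimplex.sum_eq_one, one_mul]

lemma abs_bary {v : Fin (r + 1) → Sx k} {d : ℝ} (h : Dm d v) (j : Fin (r + 1)) (l : Fin k) :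
    |v j l - bary v l| ≤ (1 - 1 / (r + 1)) * d := by
  have e : v j l - bary v l = ∑ i, (v j l - v i l) / (r + 1) := by
    have : ∀ x, (stdSimplex.barycenter : Sx (r + 1)) x = (Fintype.card (Fin (r + 1)) : ℝ)⁻¹ :=
      fun _ => rfl
    simp only [bary, aff_apply, this, Fintype.card_fin, ← sum_div,
      sum_sub_distrib, sum_const, card_univ, nsmul_eq_mul, ← mul_sum]
    push_cast
    field_simp
  rw [e, Fin.sum_univ_succAbove _ j, sub_self, zero_div, zero_add]
  refine (abs_sum_le_sum_abs _ _).trans ?_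
  calc _ ≤ ∑ _i : Fin r, d / (r + 1) := sum_le_sum fun i _ => by
        rw [abs_div, abs_of_pos (by positivity : (0 : ℝ) < r + 1)]
        exact div_le_div_of_nonneg_right (h _ _ _) (by positivity)
    _ = _ := by
      simp only [sum_const, card_univ, Fintype.card_fin, nsmul_eq_mul]
      field_simp
      ring

lemma sd_small {m : ℕ} {d : ℝ} (hd : 0 ≤ d) (hr : r ≤ m + 1) {v : Fin r → Sx k} (h : Dm d v) :
    sd r (of v) ∈ C {u | Dm ((1 - 1 / (m + 1)) * d) u ∧ ∀ i, u i ∈ Set.range (aff v)} := by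
  induction r with
  | zero => exact of_mem ⟨fun i => i.elim0, fun i => i.elim0⟩
  | succ r ih =>
    rw [sd_of, bd_of, map_al, map_al]
    refine al_mem fun φ => map_mem (fun u hu => ?_) (ih (by omega) fun i j l => h _ _ l)
    have h1 : ∀ i, u i ∈ Set.range (aff v) := fun i => by
      obtain ⟨t, ht⟩ := hu.2 i
      exact ⟨aff (vx ∘ φ) t, by rw [aff_aff, aff_vx_comp, ht]⟩
    have h2 : ∀ i l, |u i l - bary v l| ≤ (1 - 1 / (m + 1)) * d := fun i l => by
      obtain ⟨t, ht⟩ := h1 i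
      rw [← ht]
      refine abs_aff_sub v t l fun j => (abs_bary h j l).trans ?_
      have : (r : ℝ) ≤ m := by exact_mod_cast (by omega : r ≤ m)
      gcongr
    have h3 : 0 ≤ (1 - 1 / (m + 1 : ℝ)) * d :=
      mul_nonneg (sub_nonneg.mpr ((div_le_one (by positivity)).mpr (by simp))) hd
    refine ⟨fun i j l => ?_, fun i => Fin.cases ⟨_, rfl⟩ h1 i⟩
    refine Fin.cases (Fin.cases (by simpa using h3) (fun j => ?_) j)
      (fun i => Fin.cases (h2 i l) (fun j => hu.1 i j l) j) i
    rw [abs_sub_comm]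
    exact h2 j l

/-- iterated subdivision of the standard simplex -/
def sdm (k : ℕ) : ℕ → FA (Fin k → Sx k)
  | 0 => of vx
  | m + 1 => sd k (sdm k m)

lemma sdm_zero (m : ℕ) : sdm 0 m = sdm 0 0 := by
  induction m with
  | zero => rfl
  | succ m ih => exact ih

lemma bd_sdm (k m : ℕ) : (Tup _).bd (sdm (k + 1) m) =
    al fun φ => map (fun v => aff (vx ∘ φ) ∘ v) (sdm k m) := by
  induction m with
  | zero =>
    refine (bd_of _ _).trans (congrArg al (funext fun φ => congrArg of (funext fun i => ?_)))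
    exact (aff_vx (vx ∘ φ) i).symm
  | succ m ih => rw [sdm, bd_sd, ih, map_al]; simp only [sdm, map_sd]

lemma sdm_small (k : ℕ) {δ : ℝ} (hδ : 0 < δ) : ∀ᶠ m in atTop, sdm k m ∈ C {u | Dm δ u} := by
  have c0 : 0 ≤ 1 - 1 / (k + 1 : ℝ) := sub_nonneg.mpr ((div_le_one (by positivity)).mpr (by simp))
  have h : ∀ m, sdm k m ∈ C {u | Dm ((1 - 1 / (k + 1 : ℝ)) ^ m) u} := fun m => by
    induction m with
    | zero =>
      refine of_mem fun i j l => abs_le.mpr ⟨?_, ?_⟩ <;>
        linarith [stdSimplex.zero_le (vx i) l, stdSimplex.le_one (vx i) l, pow_zero (1 - 1 / (k + 1 : ℝ)),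
          stdSimplex.zero_le (vx j) l, stdSimplex.le_one (vx j) l]
    | succ m ih =>
      refine C_map _ _ (fun u hu => C_mono (fun w hw => ?_)
        (sd_small (pow_nonneg c0 m) (Nat.le_succ k) hu)) ih
      rw [pow_succ']
      exact hw.1
  filter_upwards [(tendsto_pow_atTop_nhds_zero_of_lt_one c0
    (sub_lt_self _ (by positivity))).eventually_lt_const hδ] with m hm
  exact C_mono (fun u hu i j l => (hu i j l).trans hm.le) (h m)

/-- presheaves on affine maps of simplices -/
structure AP where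
  X : ℕ → Type
  A : ∀ {r k : ℕ}, (Fin r → Sx k) → X k → X r
  A_A : ∀ {q r k : ℕ} (v : Fin q → Sx r) (w : Fin r → Sx k) (x : X k), A v (A w x) = A (aff w ∘ v) x

/-- the underlying presheaf on vertex sets -/
abbrev AP.ps (L : AP) : PS :=
  ⟨L.X, fun φ => L.A (vx ∘ φ), fun φ ψ x => by rw [L.A_A, aff_vx_comp]; rfl⟩

theorem subdiv (L : AP) {S : L.ps.Fm}
    (hS : ∀ {r k : ℕ} (v : Fin r → Sx k), ∀ x ∈ S k, L.A v x ∈ S r)
    (hid : ∀ x ∈ S k, L.A vx x = x) {S0 S1 : Set (L.X k)} (h0 : S0 ⊆ S k)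
    (h : ∀ x ∈ S0, ∃ δ > 0, ∀ v : Fin k → Sx k, Dm δ v → L.A v x ∈ S1)
    {z : FA (L.X k)} (hz : z ∈ C S0) (hc : z ∈ L.ps.Z k) : ∃ z' ∈ C S1, z - z' ∈ B S k := by
  obtain ⟨m, hm⟩ := (ev_mem (l := atTop) (fun m => lift fun x => map (fun v => L.A v x) (sdm k m))
    (fun _ => C S1) (fun x hx => by
      obtain ⟨δ, hδ, h⟩ := h x hx
      filter_upwards [sdm_small k hδ] with m hm
      rw [lift_apply_of]
      exact map_mem h hm) hz).exists
  refine ⟨_, hm, ?_⟩
  have := am_tup (P := L.ps) (Q := L.ps) Sx (fun φ => aff (vx ∘ φ))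
    (fun φ ψ t => by rw [aff_aff, aff_vx_comp]; rfl) (fun _ => vx 0)
    (fun k => sdm k 0 - sdm k m) (sub_eq_zero.mpr (sdm_zero m).symm) (fun k => by
      rw [map_sub, bd_sdm, bd_sdm]; simp only [map_sub, al_sub])
    (fun φ => hS _) (T := S) (fun x v => L.A v x)
    (fun _ _ φ x _ v => by rw [← aff_vx_comp v φ]; exact L.A_A _ _ _)
    (fun _ _ φ x _ v => L.A_A _ _ _) (fun x hx v => hS v x hx) (C_mono h0 hz) hc
  rwa [C_eq (lift _) (AddMonoidHom.id _ - lift fun x => map (fun v => L.A v x) (sdm k m))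
    (fun x hx => by
      simp only [lift_apply_of, map_sub, sdm, map_of_apply, hid x (h0 hx), AddMonoidHom.sub_apply,
        AddMonoidHom.id_apply]) hz] at this

end

end Pool.Agent.P.MP_878f14_gt.MT
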